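import Mathlib

/-!
# Small blocks with sum zero in a family of integral vectors with sum zero
-/

set_option autoImplicit false

namespace Pool.Agent.Q56.FD

open Multiset

variable {T : Type*}

/-- A family of integers with sum `-σ` can be ordered such that all partial sums, starting with `σ`,
are small. -/
lemma exists_order {E : ℤ} (f : T → ℤ) : ∀ (n : ℕ) (s : Multiset T) (σ : ℤ), card s = n →
    (∀ t ∈ s, |f t| ≤ E) → 1 - E ≤ σ → σ ≤ E → σ + (s.map f).sum = 0 →
      ∃ l : List T, (l : Multiset T) = s ∧ ∀ k, 1 - E ≤ σ + ((l.take k).map f).sum ∧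
        σ + ((l.take k).map f).sum ≤ E := by
  classical
  intro n
  induction n with
  | zero =>
    intro s σ hs _ h1 h2 _
    refine ⟨[], (Multiset.card_eq_zero.1 hs).symm, fun k => ?_⟩
    simp only [List.take_nil, List.map_nil, List.sum_nil, add_zero]
    exact ⟨h1, h2⟩
  | succ n ih =>
    intro s σ hs hf h1 h2 h0
    have key : ∃ t ∈ s, 1 - E ≤ σ + f t ∧ σ + f t ≤ E := by
      rcases le_or_gt σ 0 with hσ | hσ
      · by_contra hcon
        push Not at hcon
        have h3 : ∀ x ∈ s.map f, x ≤ -1 := by
          intro x hx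
          obtain ⟨t, ht, rfl⟩ := Multiset.mem_map.1 hx
          by_contra h4
          have h5 := hcon t ht (by linarith)
          have h6 := (abs_le.1 (hf t ht)).2
          linarith
        have h4 := Multiset.sum_le_card_nsmul _ _ h3
        rw [Multiset.card_map, hs, nsmul_eq_mul] at h4
        push_cast at h4
        linarith
      · by_contra hcon
        push Not at hcon
        have h3 : ∀ x ∈ s.map f, 0 ≤ x := by
          intro x hx
          obtain ⟨t, ht, rfl⟩ := Multiset.mem_map.1 hx
          by_contra h4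
          have h6 := (abs_le.1 (hf t ht)).1
          have h5 := hcon t ht (by linarith)
          linarith
        have h4 := Multiset.sum_nonneg h3
        linarith
    obtain ⟨t, ht, h3, h4⟩ := key
    obtain ⟨l, hl, hk⟩ := ih (s.erase t) (σ + f t) (by rw [Multiset.card_erase_of_mem ht, hs]; rfl)
      (fun u hu => hf u (Multiset.mem_of_mem_erase hu)) h3 h4 (by
        rw [← Multiset.cons_erase ht, Multiset.map_cons, Multiset.sum_cons] at h0
        linarith)
    refine ⟨t :: l, ?_, fun k => ?_⟩
    · rw [← Multiset.cons_coe, hl, Multiset.cons_erase ht]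
    · cases k with
      | zero =>
        simp only [List.take_zero, List.map_nil, List.sum_nil, add_zero]
        exact ⟨h1, h2⟩
      | succ k =>
        rw [List.take_succ_cons, List.map_cons, List.sum_cons, ← add_assoc]
        exact hk k

/-- A nonempty family of integers of absolute value at most `E` with sum zero contains a nonempty
family of at most `2 E` members with sum zero. -/
lemma exists_zero_block {E : ℕ} (hE : 1 ≤ E) (f : T → ℤ) (s : Multiset T)
    (hf : ∀ t ∈ s, |f t| ≤ E) (hs : s ≠ 0) (h0 : (s.map f).sum = 0) :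
    ∃ s' ≤ s, s' ≠ 0 ∧ card s' ≤ 2 * E ∧ (s'.map f).sum = 0 := by
  classical
  obtain ⟨l, hl, hk⟩ := exists_order (E := E) f (card s) s 0 rfl hf (by
    have : (1 : ℤ) ≤ E := by exact_mod_cast hE
    linarith) (by positivity) (by rw [zero_add, h0])
  rcases le_or_gt l.length (2 * E) with h | h
  · refine ⟨s, le_rfl, hs, ?_, h0⟩
    rw [← hl, Multiset.coe_card]
    exact h
  · obtain ⟨i, hi, j, hj, hij, he⟩ := Finset.exists_ne_map_eq_of_card_lt_of_maps_to
      (s := Finset.range (2 * E + 1)) (t := Finset.Icc (1 - (E : ℤ)) E)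
      (f := fun k => ((l.take k).map f).sum) (by
        rw [Finset.card_range, Int.card_Icc]
        omega) (by
        intro k _
        have := hk k
        simp only [zero_add] at this
        simp only [Finset.coe_Icc, Set.mem_Icc]
        exact this)
    have key : ∀ i j : ℕ, i < j → j ≤ 2 * E → ((l.take i).map f).sum = ((l.take j).map f).sum →
        ∃ s' ≤ s, s' ≠ 0 ∧ card s' ≤ 2 * E ∧ (s'.map f).sum = 0 := by
      intro i j hij hj he
      have h1 : l.take j = l.take i ++ (l.take j).drop i := by
        have h2 : (l.take j).take i = l.take i := by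
          rw [List.take_take, min_eq_left hij.le]
        rw [← h2, List.take_append_drop]
      refine ⟨((l.take j).drop i : List T), ?_, ?_, ?_, ?_⟩
      · rw [← hl]
        exact ((List.drop_sublist _ _).trans (List.take_sublist _ _)).subperm
      · intro h2
        rw [Multiset.coe_eq_zero, List.drop_eq_nil_iff, List.length_take, min_eq_left (by omega)]
          at h2
        omega
      · rw [Multiset.coe_card, List.length_drop, List.length_take]
        omega
      · rw [Multiset.map_coe, Multiset.sum_coe]
        rw [h1, List.map_append, List.sum_append] at he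
        linarith
    rw [Finset.mem_range] at hi hj
    rcases lt_or_gt_of_ne hij with h1 | h1
    · exact key i j h1 (by omega) he
    · exact key j i h1 (by omega) he.symm

/-- Partition into small blocks. -/
lemma exists_partition [DecidableEq T] {R : Multiset T → Prop} {B : ℕ}
    (hR : ∀ s s', s' ≤ s → R s → R s' → R (s - s'))
    (h : ∀ s, s ≠ 0 → R s → ∃ s' ≤ s, s' ≠ 0 ∧ card s' ≤ B ∧ R s') :
    ∀ (n : ℕ) (s : Multiset T), card s ≤ n → R s → ∃ P : Multiset (Multiset T), P.join = s ∧
      ∀ u ∈ P, u ≠ 0 ∧ card u ≤ B ∧ R u := by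
  intro n
  induction n with
  | zero =>
    intro s hs _
    refine ⟨0, ?_, fun u hu => absurd hu (Multiset.notMem_zero u)⟩
    rw [Multiset.join_zero, Multiset.card_eq_zero.1 (Nat.le_zero.1 hs)]
  | succ n ih =>
    intro s hs hRs
    by_cases h0 : s = 0
    · exact ⟨0, by rw [Multiset.join_zero, h0], fun u hu => absurd hu (Multiset.notMem_zero u)⟩
    · obtain ⟨s', hle, hne, hc, hRs'⟩ := h s h0 hRs
      obtain ⟨P, hP, hPu⟩ := ih (s - s') (by
        rw [Multiset.card_sub hle]
        have := Multiset.card_pos.2 hne
        omega) (hR s s' hle hRs hRs')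
      refine ⟨s' ::ₘ P, ?_, fun u hu => ?_⟩
      · rw [Multiset.join_cons, hP, add_tsub_cancel_of_le hle]
      · rcases Multiset.mem_cons.1 hu with rfl | hu
        · exact ⟨hne, hc, hRs'⟩
        · exact hPu u hu

/-- sums over the union of a family of blocks -/
lemma sum_join {M : Type*} [AddCommMonoid M] (g : T → M) (P : Multiset (Multiset T)) :
    (P.join.map g).sum = (P.map fun u => (u.map g).sum).sum := by
  induction P using Multiset.induction with
  | empty => simp
  | cons a P ih => rw [Multiset.join_cons, Multiset.map_add, Multiset.sum_add, ih,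
      Multiset.map_cons, Multiset.sum_cons]

lemma card_join_le {B : ℕ} (P : Multiset (Multiset T)) (h : ∀ u ∈ P, card u ≤ B) :
    card P.join ≤ card P * B := by
  induction P using Multiset.induction with
  | empty => simp
  | cons a P ih =>
    rw [Multiset.join_cons, Multiset.card_add, Multiset.card_cons, add_mul, one_mul, add_comm]
    exact add_le_add (ih fun u hu => h u (Multiset.mem_cons_of_mem hu))
      (h a (Multiset.mem_cons_self a P))

lemma join_mono {P P' : Multiset (Multiset T)} (h : P' ≤ P) : P'.join ≤ P.join := by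
  obtain ⟨Q, rfl⟩ := Multiset.le_iff_exists_add.1 h
  rw [Multiset.join_add]
  exact Multiset.le_add_right _ _

lemma join_ne_zero {P : Multiset (Multiset T)} (h : P ≠ 0) (hP : ∀ u ∈ P, u ≠ 0) :
    P.join ≠ 0 := by
  obtain ⟨u, hu⟩ := Multiset.exists_mem_of_ne_zero h
  obtain ⟨t, ht⟩ := Multiset.exists_mem_of_ne_zero (hP u hu)
  intro h1
  have h2 : t ∈ P.join := Multiset.mem_join.2 ⟨u, hu, ht⟩
  rw [h1] at h2
  exact Multiset.notMem_zero t h2

/-- the sums of the first `r` coordinates vanish -/
def ZeroSum (c : T → ℕ → ℤ) (r : ℕ) (s : Multiset T) : Prop :=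
  ∀ k < r, (s.map fun t => c t k).sum = 0

lemma sum_sub {M : Type*} [AddCommGroup M] (g : T → M) {s s' : Multiset T} [DecidableEq T]
    (h : s' ≤ s) : ((s - s').map g).sum = (s.map g).sum - (s'.map g).sum := by
  obtain ⟨u, rfl⟩ := Multiset.le_iff_exists_add.1 h
  rw [add_tsub_cancel_left, Multiset.map_add, Multiset.sum_add, add_sub_cancel_left]

lemma ZeroSum.sub [DecidableEq T] {c : T → ℕ → ℤ} {r : ℕ} {s s' : Multiset T} (h : s' ≤ s)
    (hs : ZeroSum c r s) (hs' : ZeroSum c r s') : ZeroSum c r (s - s') := by
  intro k hk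
  rw [sum_sub _ h, hs k hk, hs' k hk, sub_zero]

/-- **Small blocks.** -/
theorem exists_block {c : T → ℕ → ℤ} {D : ℕ} (hD : 1 ≤ D) (hc : ∀ t k, |c t k| ≤ D) :
    ∀ (r : ℕ) (s : Multiset T), s ≠ 0 → ZeroSum c r s →
      ∃ s' ≤ s, s' ≠ 0 ∧ card s' ≤ (2 * D) ^ (2 ^ r - 1) ∧ ZeroSum c r s' := by
  classical
  intro r
  induction r with
  | zero =>
    intro s hs _
    obtain ⟨t, ht⟩ := Multiset.exists_mem_of_ne_zero hs
    refine ⟨{t}, Multiset.singleton_le.2 ht, Multiset.singleton_ne_zero t, ?_, ?_⟩
    · simp
    · intro k hk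
      exact absurd hk (Nat.not_lt_zero k)
  | succ r ih =>
    intro s hs h0
    set B := (2 * D) ^ (2 ^ r - 1) with hB
    have hBpos : 1 ≤ B := Nat.one_le_pow _ _ (by omega)
    obtain ⟨P, hP, hPu⟩ := exists_partition (R := ZeroSum c r) (B := B)
      (fun s s' h hs hs' => hs.sub h hs') ih (card s) s le_rfl (fun k hk => h0 k (by omega))
    have hP0 : P ≠ 0 := by
      rintro rfl
      rw [Multiset.join_zero] at hP
      exact hs hP.symm
    obtain ⟨P', hle, hne, hcard, hsum⟩ := exists_zero_block (E := B * D)
      (Nat.one_le_iff_ne_zero.2 (Nat.mul_pos hBpos hD).ne') (fun u => (u.map fun t => c t r).sum) P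
      (by
        intro u hu
        have h1 : |(u.map fun t => c t r).sum| ≤ card u * D := by
          have h2 : ∀ x ∈ u.map fun t => c t r, |x| ≤ D := by
            intro x hx
            obtain ⟨t, _, rfl⟩ := Multiset.mem_map.1 hx
            exact hc t r
          clear hu
          induction u using Multiset.induction with
          | empty => simp
          | cons a u ih =>
            rw [Multiset.map_cons, Multiset.sum_cons, Multiset.card_cons]
            push_cast
            refine (abs_add_le _ _).trans ?_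
            have h3 := ih fun x hx => h2 x (by
              rw [Multiset.map_cons]; exact Multiset.mem_cons_of_mem hx)
            have h4 := hc a r
            linarith
        refine h1.trans ?_
        push_cast
        have h2 : (card u : ℤ) ≤ B := by exact_mod_cast (hPu u hu).2.1
        have h3 : (0 : ℤ) ≤ D := by positivity
        nlinarith) hP0 (by
        rw [← sum_join, hP]
        exact h0 r (Nat.lt_succ_self r))
    refine ⟨P'.join, hP ▸ join_mono hle, join_ne_zero hne fun u hu =>
      (hPu u (Multiset.mem_of_le hle hu)).1, ?_, ?_⟩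
    · refine (card_join_le P' fun u hu => (hPu u (Multiset.mem_of_le hle hu)).2.1).trans ?_
      calc card P' * B ≤ (2 * (B * D)) * B := Nat.mul_le_mul_right _ hcard
        _ = (2 * D) * (B * B) := by ring
        _ = (2 * D) ^ (2 ^ (r + 1) - 1) := by
          rw [hB, ← pow_add, ← pow_succ']
          congr 1
          have : 1 ≤ 2 ^ r := Nat.one_le_two_pow
          rw [pow_succ]
          omega
    · intro k hk
      rw [sum_join]
      rcases Nat.lt_succ_iff_lt_or_eq.1 hk with h1 | rfl
      · apply Multiset.sum_eq_zero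
        intro x hx
        obtain ⟨u, hu, rfl⟩ := Multiset.mem_map.1 hx
        exact (hPu u (Multiset.mem_of_le hle hu)).2.2 k h1
      · exact hsum

/-- **Small blocks of even weight.** -/
theorem exists_even_block {c : T → ℕ → ℤ} {D : ℕ} (hD : 1 ≤ D) (hc : ∀ t k, |c t k| ≤ D)
    (w : T → ℕ) (r : ℕ) (s : Multiset T) (hs : s ≠ 0) (h0 : ZeroSum c r s)
    (hw : Even (s.map w).sum) :
      ∃ s' ≤ s, s' ≠ 0 ∧ card s' ≤ (2 * D) ^ 2 ^ r ∧ ZeroSum c r s' ∧ Even (s'.map w).sum := by
  classical
  set B := (2 * D) ^ (2 ^ r - 1) with hB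
  have hBpos : 1 ≤ B := Nat.one_le_pow _ _ (by omega)
  have hBB : 2 * B ≤ (2 * D) ^ 2 ^ r := by
    have h1 : (2 * D) ^ 2 ^ r = 2 * D * B := by
      rw [hB, ← pow_succ']
      congr 1
      have : 1 ≤ 2 ^ r := Nat.one_le_two_pow
      omega
    rw [h1]
    nlinarith
  obtain ⟨P, hP, hPu⟩ := exists_partition (R := ZeroSum c r) (B := B)
    (fun s s' h hs hs' => hs.sub h hs') (exists_block hD hc r) (card s) s le_rfl h0
  have hP0 : P ≠ 0 := by
    rintro rfl
    rw [Multiset.join_zero] at hP
    exact hs hP.symm
  by_cases hev : ∃ u ∈ P, Even (u.map w).sum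
  · obtain ⟨u, hu, he⟩ := hev
    refine ⟨u, ?_, (hPu u hu).1, ((hPu u hu).2.1.trans (by omega)).trans hBB, (hPu u hu).2.2, he⟩
    rw [← hP]
    have h1 : ({u} : Multiset (Multiset T)) ≤ P := Multiset.singleton_le.2 hu
    have h2 := join_mono h1
    rwa [show ({u} : Multiset (Multiset T)).join = u by
      rw [← Multiset.cons_zero, Multiset.join_cons, Multiset.join_zero, add_zero]] at h2
  · push Not at hev
    obtain ⟨u, hu⟩ := Multiset.exists_mem_of_ne_zero hP0
    have hodd : ∀ v ∈ P, Odd (v.map w).sum := fun v hv => Nat.not_even_iff_odd.1 (hev v hv)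
    have hne : P.erase u ≠ 0 := by
      intro h1
      have h2 : P = {u} := by
        rw [← Multiset.cons_erase hu, h1]
        rfl
      rw [← hP, h2, sum_join, Multiset.map_singleton, Multiset.sum_singleton] at hw
      exact hev u hu hw
    obtain ⟨v, hv⟩ := Multiset.exists_mem_of_ne_zero hne
    have hvP : v ∈ P := Multiset.mem_of_mem_erase hv
    have h1 : u ::ₘ {v} ≤ P := by
      rw [← Multiset.cons_erase hu]
      exact Multiset.cons_le_cons u (Multiset.singleton_le.2 hv)
    have h2 : (u ::ₘ {v} : Multiset (Multiset T)).join = u + v := by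
      rw [Multiset.join_cons, ← Multiset.cons_zero, Multiset.join_cons, Multiset.join_zero,
        add_zero]
    refine ⟨u + v, ?_, ?_, ?_, ?_, ?_⟩
    · rw [← hP, ← h2]
      exact join_mono h1
    · intro h3
      exact (hPu u hu).1 (add_eq_zero.1 h3).1
    · rw [Multiset.card_add]
      have h3 := (hPu u hu).2.1
      have h4 := (hPu v hvP).2.1
      omega
    · intro k hk
      rw [Multiset.map_add, Multiset.sum_add, (hPu u hu).2.2 k hk, (hPu v hvP).2.2 k hk, add_zero]
    · rw [Multiset.map_add, Multiset.sum_add]
      exact (hodd u hu).add_odd (hodd v hvP)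

end Pool.Agent.Q56.FD
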