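import Pool.Agent.Q56.FD.Poly
import Pool.Agent.Q56.FD.Zero
import Pool.Agent.H485R3.Group

/-!
# Slopes of the roots of Frobenius polynomials
-/

set_option autoImplicit false

namespace Pool.Agent.Q56.FD

open Polynomial Pool.Agent.H485R3

/-- the algebraic numbers -/
abbrev Qb : Type := AlgebraicClosure ℚ

instance instAlgQb : Algebra.IsAlgebraic ℚ Qb := AlgebraicClosure.isAlgebraic ℚ

instance instClosureQb : IsAlgClosure ℚ Qb := ⟨inferInstance, inferInstance⟩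

instance instNormalQb : Normal ℚ Qb := IsAlgClosure.normal ℚ Qb

instance instIntQb : Algebra.IsIntegral ℚ Qb := Algebra.IsAlgebraic.isIntegral

variable {p : ℕ} [Fact p.Prime] {e i : ℕ} {P : ℤ[X]} {a : Qb}

lemma q_gt (he : 0 < e) : 1 < ((p ^ e : ℕ) : ℝ) := by
  exact_mod_cast Nat.one_lt_pow he.ne' (Fact.out : p.Prime).one_lt

lemma q_pos : 0 < ((p ^ e : ℕ) : ℝ) := by
  exact_mod_cast pow_pos (Fact.out : p.Prime).pos e

lemma root_map {A : Type*} [CommRing A] (φ : Qb →+* A) (ha : aeval a P = 0) :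
    aeval (φ a) P = 0 := by
  have h := Polynomial.aeval_algHom_apply φ.toIntAlgHom a P
  change aeval (φ a) P = φ (aeval a P) at h
  rw [h, ha, map_zero]

lemma norm_sq_root (hP : IsFrobPoly p (p ^ e) i P) (ha : aeval a P = 0) (φ : Qb →+* ℂ) :
    ‖φ a‖ ^ 2 = ((p ^ e : ℕ) : ℝ) ^ i := hP.weil _ (root_map φ ha)

lemma root_ne_zero (hP : IsFrobPoly p (p ^ e) i P) (ha : aeval a P = 0) : a ≠ 0 := by
  let φ : Qb →ₐ[ℚ] ℂ := IsAlgClosed.lift
  have h := norm_sq_root hP ha (φ : Qb →+* ℂ)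
  rintro rfl
  rw [map_zero, norm_zero, zero_pow two_ne_zero] at h
  exact (pow_pos (q_pos (p := p) (e := e)) i).ne h

lemma integral_root (hP : IsFrobPoly p (p ^ e) i P) (ha : aeval a P = 0) : IsIntegral ℤ a :=
  ⟨P, hP.monic, by rwa [← aeval_def]⟩

lemma dual_root (hP : IsFrobPoly p (p ^ e) i P) (ha : aeval a P = 0) :
    aeval (((p ^ e : ℕ) : Qb) ^ i / a) P = 0 := by
  let φ : Qb →ₐ[ℚ] ℂ := IsAlgClosed.lift
  have h1 := norm_sq_root hP ha (φ : Qb →+* ℂ)
  have h0 : φ a ≠ 0 := (map_ne_zero φ).2 (root_ne_zero hP ha)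
  have h2 : φ (((p ^ e : ℕ) : Qb) ^ i / a) = starRingEnd ℂ (φ a) := by
    rw [map_div₀, map_pow, map_natCast, div_eq_iff h0, mul_comm, Complex.mul_conj,
      Complex.normSq_eq_norm_sq]
    change _ = ((‖(φ : Qb →+* ℂ) a‖ ^ 2 : ℝ) : ℂ)
    rw [h1]
    push_cast
    rfl
  apply (φ : Qb →+* ℂ).injective
  rw [map_zero]
  have h3 := Polynomial.aeval_algHom_apply (φ : Qb →+* ℂ).toIntAlgHom
    (((p ^ e : ℕ) : Qb) ^ i / a) P
  change aeval (φ _) P = φ (aeval _ P) at h3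
  change φ (aeval _ P) = 0
  rw [← h3, h2]
  have h4 := Polynomial.aeval_algHom_apply (starRingEnd ℂ).toIntAlgHom (φ a) P
  change aeval (starRingEnd ℂ (φ a)) P = starRingEnd ℂ (aeval (φ a) P) at h4
  rw [h4]
  have h5 : aeval (φ a) P = 0 := root_map (φ : Qb →+* ℂ) ha
  rw [h5, map_zero]

lemma norm_q (ι : Qb →+* PadicAlgCl p) : ‖ι ((p ^ e : ℕ) : Qb)‖ = ((p ^ e : ℕ) : ℝ)⁻¹ := by
  rw [map_natCast]
  have h1 : (((p ^ e : ℕ)) : PadicAlgCl p) =
      (algebraMap ℚ_[p] (PadicAlgCl p)) ((p : ℚ_[p]) ^ e) := by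
    push_cast
    rfl
  rw [h1, PadicAlgCl.norm_extends, norm_pow, Padic.norm_p, inv_pow]
  push_cast
  rfl

lemma norm_root_le (hP : IsFrobPoly p (p ^ e) i P) (ha : aeval a P = 0)
    (ι : Qb →+* PadicAlgCl p) : ‖ι a‖ ≤ 1 :=
  norm_le_one_of_isIntegral p _ ((integral_root hP ha).map ι.toIntAlgHom)

/-- the slope -/
noncomputable def sl (q : ℕ) (ι : Qb →+* PadicAlgCl p) (a : Qb) : ℝ := -Real.logb q ‖ι a‖

lemma norm_eq_sl (he : 0 < e) (ι : Qb →+* PadicAlgCl p) (ha : a ≠ 0) :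
    ‖ι a‖ = ((p ^ e : ℕ) : ℝ) ^ (-sl (p ^ e) ι a) := by
  rw [sl, neg_neg, Real.rpow_logb q_pos (q_gt he).ne' (norm_pos_iff.2 ((map_ne_zero ι).2 ha))]

lemma sl_nonneg (he : 0 < e) (hP : IsFrobPoly p (p ^ e) i P) (ha : aeval a P = 0)
    (ι : Qb →+* PadicAlgCl p) : 0 ≤ sl (p ^ e) ι a := by
  rw [sl, neg_nonneg]
  exact Real.logb_nonpos (q_gt he) (norm_nonneg _) (norm_root_le hP ha ι)

lemma sl_le (he : 0 < e) (hP : IsFrobPoly p (p ^ e) i P) (ha : aeval a P = 0)
    (ι : Qb →+* PadicAlgCl p) : sl (p ^ e) ι a ≤ i := by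
  have h1 := norm_root_le hP (dual_root hP ha) ι
  have h0 : 0 < ‖ι a‖ := norm_pos_iff.2 ((map_ne_zero ι).2 (root_ne_zero hP ha))
  rw [map_div₀, map_pow, norm_div, norm_pow, norm_q, div_le_one h0] at h1
  rw [sl]
  have h2 : Real.logb ((p ^ e : ℕ) : ℝ) ((((p ^ e : ℕ) : ℝ)⁻¹) ^ i) ≤
      Real.logb ((p ^ e : ℕ) : ℝ) ‖ι a‖ :=
    Real.logb_le_logb_of_le (q_gt he) (pow_pos (inv_pos.2 q_pos) i) h1
  rw [inv_pow, Real.logb_inv, Real.logb_pow, Real.logb_self_eq_one (q_gt he), mul_one] at h2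
  linarith

lemma sl_int (he : 0 < e) (hP : IsFrobPoly p (p ^ e) i P) (ha : aeval a P = 0)
    (ι : Qb →+* PadicAlgCl p) {N : ℕ} (hN : P.natDegree ≤ N) :
    ∃ z : ℤ, (N.factorial : ℝ) * sl (p ^ e) ι a = z := by
  classical
  obtain ⟨m, hm⟩ := hP.slopes (sl (p ^ e) ι a)
  have hP0 : P ≠ 0 := hP.monic.ne_zero
  have h1 : 0 < slopeMult p (p ^ e) P (sl (p ^ e) ι a) := by
    rw [slopeMult, Multiset.card_pos_iff_exists_mem]
    refine ⟨ι a, Multiset.mem_filter.2 ⟨?_, ?_⟩⟩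
    · rw [mem_aroots]
      exact ⟨hP0, root_map ι ha⟩
    · exact norm_eq_sl he ι (root_ne_zero hP ha)
  have h2 : slopeMult p (p ^ e) P (sl (p ^ e) ι a) ≤ N := by
    refine ((Multiset.card_le_card (Multiset.filter_le _ _)).trans ?_).trans hN
    refine (Polynomial.card_roots' _).trans ?_
    exact Polynomial.natDegree_map_le
  obtain ⟨t, ht⟩ := Nat.dvd_factorial h1 h2
  refine ⟨t * m, ?_⟩
  push_cast
  rw [← hm, ht]
  push_cast
  ring

/-! ### letters -/

/-- a letter: a degree and an eigenvalue -/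
abbrev Letter (P : ℕ → ℤ[X]) (M : ℕ) : Type := {x : ℕ × Qb // x.1 ≤ M ∧ aeval x.2 (P x.1) = 0}

variable {Q : ℕ → ℤ[X]} {M : ℕ}

/-- the product of the eigenvalues -/
noncomputable def pr (s : Multiset (Letter Q M)) : Qb := (s.map fun x => x.1.2).prod

/-- the total degree -/
def dg (s : Multiset (Letter Q M)) : ℕ := (s.map fun x => x.1.1).sum

lemma pr_cons (x : Letter Q M) (s : Multiset (Letter Q M)) : pr (x ::ₘ s) = x.1.2 * pr s := by
  rw [pr, pr, Multiset.map_cons, Multiset.prod_cons]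

lemma dg_cons (x : Letter Q M) (s : Multiset (Letter Q M)) : dg (x ::ₘ s) = x.1.1 + dg s := by
  rw [dg, dg, Multiset.map_cons, Multiset.sum_cons]

lemma pr_norm_sq (hQ : ∀ i ≤ M, IsFrobPoly p (p ^ e) i (Q i)) (s : Multiset (Letter Q M))
    (φ : Qb →+* ℂ) : ‖φ (pr s)‖ ^ 2 = ((p ^ e : ℕ) : ℝ) ^ dg s := by
  induction s using Multiset.induction with
  | empty => simp [pr, dg]
  | cons x s ih =>
    rw [pr_cons, dg_cons, map_mul, norm_mul, mul_pow, ih,
      norm_sq_root (hQ _ x.2.1) x.2.2 φ, pow_add]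

lemma pr_ne_zero (hQ : ∀ i ≤ M, IsFrobPoly p (p ^ e) i (Q i)) (s : Multiset (Letter Q M)) :
    pr s ≠ 0 := by
  induction s using Multiset.induction with
  | empty => simp [pr]
  | cons x s ih =>
    rw [pr_cons]
    exact mul_ne_zero (root_ne_zero (hQ _ x.2.1) x.2.2) ih

lemma pr_integral (hQ : ∀ i ≤ M, IsFrobPoly p (p ^ e) i (Q i)) (s : Multiset (Letter Q M)) :
    IsIntegral ℤ (pr s) := by
  induction s using Multiset.induction with
  | empty =>
    rw [pr, Multiset.map_zero, Multiset.prod_zero]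
    exact isIntegral_one
  | cons x s ih =>
    rw [pr_cons]
    exact (integral_root (hQ _ x.2.1) x.2.2).mul ih

lemma pr_norm (he : 0 < e) (hQ : ∀ i ≤ M, IsFrobPoly p (p ^ e) i (Q i))
    (s : Multiset (Letter Q M)) (ι : Qb →+* PadicAlgCl p) :
    ‖ι (pr s)‖ = ((p ^ e : ℕ) : ℝ) ^ (-(s.map fun x => sl (p ^ e) ι x.1.2).sum) := by
  induction s using Multiset.induction with
  | empty => simp [pr]
  | cons x s ih =>
    rw [pr_cons, map_mul, norm_mul, ih, norm_eq_sl he ι (root_ne_zero (hQ _ x.2.1) x.2.2),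
      Multiset.map_cons, Multiset.sum_cons, neg_add, Real.rpow_add q_pos]

/-- The product of the eigenvalues is, up to a root of unity, the power `q ^ (degree / 2)`. -/
def Bal (q : ℕ) (s : Multiset (Letter Q M)) : Prop :=
  ∃ j m : ℕ, 0 < m ∧ (pr s) ^ m = ((q : Qb) ^ j) ^ m ∧ dg s = 2 * j

/-- the centred slope at the place `ι` -/
noncomputable def cs (q : ℕ) (ι : Qb →+* PadicAlgCl p) (x : Letter Q M) : ℝ :=
  2 * sl q ι x.1.2 - x.1.1

/-- relations give vanishing sums -/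
lemma Bal.sum_zero (he : 0 < e) (hQ : ∀ i ≤ M, IsFrobPoly p (p ^ e) i (Q i))
    {s : Multiset (Letter Q M)} {j m : ℕ} (hm : 0 < m)
    (h : (pr s) ^ m = (((p ^ e : ℕ) : Qb) ^ j) ^ m) :
    dg s = 2 * j ∧ ∀ ι : Qb →+* PadicAlgCl p, (s.map fun x => cs (p ^ e) ι x).sum = 0 := by
  have hd : dg s = 2 * j := by
    let φ : Qb →ₐ[ℚ] ℂ := IsAlgClosed.lift
    have h1 := congrArg (fun z => ‖(φ : Qb →+* ℂ) z‖ ^ 2) h
    simp only [map_pow, norm_pow] at h1
    have h2 : (‖(φ : Qb →+* ℂ) (pr s)‖ ^ 2) ^ m = (((p ^ e : ℕ) : ℝ) ^ (2 * j)) ^ m := by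
      rw [← pow_mul, mul_comm 2 m, pow_mul, h1]
      have h3 : ‖(φ : Qb →+* ℂ) ((p ^ e : ℕ) : Qb)‖ = ((p ^ e : ℕ) : ℝ) := by
        rw [map_natCast, Complex.norm_natCast]
      rw [h3]
      ring
    rw [pr_norm_sq hQ s] at h2
    have h3 := (pow_left_inj₀ (by positivity) (by positivity) hm.ne').1 h2
    exact (pow_right_injective₀ q_pos (q_gt he).ne') h3
  refine ⟨hd, fun ι => ?_⟩
  have h1 := congrArg (fun z => ‖ι z‖) h
  simp only [map_pow, norm_pow] at h1
  have h2 := (pow_left_inj₀ (norm_nonneg _) (by positivity) hm.ne').1 h1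
  rw [pr_norm he hQ, norm_q] at h2
  have h3 : ((((p ^ e : ℕ) : ℝ))⁻¹) ^ j = ((p ^ e : ℕ) : ℝ) ^ (-(j : ℝ)) := by
    rw [Real.rpow_neg q_pos.le, Real.rpow_natCast, inv_pow]
  rw [h3] at h2
  have h4 := congrArg (Real.logb ((p ^ e : ℕ) : ℝ)) h2
  rw [Real.logb_rpow q_pos (q_gt he).ne', Real.logb_rpow q_pos (q_gt he).ne'] at h4
  have h5 : (s.map fun x => cs (p ^ e) ι x).sum =
      2 * (s.map fun x => sl (p ^ e) ι x.1.2).sum - (dg s : ℝ) := by
    clear h h1 h2 h3 h4 hd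
    induction s using Multiset.induction with
    | empty => simp [dg]
    | cons x s ih =>
      rw [Multiset.map_cons, Multiset.sum_cons, ih, Multiset.map_cons, Multiset.sum_cons, dg_cons,
        cs]
      push_cast
      ring
  rw [h5, hd]
  push_cast
  linarith

/-- vanishing sums give relations -/
lemma bal_of_sum_zero (he : 0 < e) (hQ : ∀ i ≤ M, IsFrobPoly p (p ^ e) i (Q i))
    {s : Multiset (Letter Q M)} (hd : Even (dg s))
    (h : ∀ ι : Qb →+* PadicAlgCl p, (s.map fun x => cs (p ^ e) ι x).sum = 0) :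
    Bal (p ^ e) s := by
  obtain ⟨j, hj⟩ := hd
  have hj' : dg s = 2 * j := by omega
  set x : Qb := pr s / ((p ^ e : ℕ) : Qb) ^ j with hx
  have hq0 : ((p ^ e : ℕ) : Qb) ≠ 0 := by
    exact_mod_cast (pow_pos (Fact.out : p.Prime).pos e).ne'
  have h5 : ∀ ι : Qb →+* PadicAlgCl p, (s.map fun x => cs (p ^ e) ι x).sum =
      2 * (s.map fun x => sl (p ^ e) ι x.1.2).sum - (dg s : ℝ) := by
    intro ι
    clear h hj hj' hx x
    induction s using Multiset.induction with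
    | empty => simp [dg]
    | cons x s ih =>
      rw [Multiset.map_cons, Multiset.sum_cons, ih, Multiset.map_cons, Multiset.sum_cons, dg_cons,
        cs]
      push_cast
      ring
  have hsl : ∀ ι : Qb →+* PadicAlgCl p, (s.map fun x => sl (p ^ e) ι x.1.2).sum = j := by
    intro ι
    have h1 := h5 ι
    rw [h ι, hj'] at h1
    push_cast at h1
    linarith
  have hint : IsIntegral ℤ x := by
    refine isIntegral_of_norm_le x ?_
    intro l _ f
    have h1 : ‖f (pr s)‖ ≤ 1 :=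
      norm_le_one_of_isIntegral l _ ((pr_integral hQ s).map (f : Qb →+* PadicAlgCl l).toIntAlgHom)
    rw [hx, map_div₀, map_pow, norm_div, norm_pow]
    by_cases hl : l = p
    · subst hl
      have h2 := pr_norm he hQ s (f : Qb →+* PadicAlgCl l)
      have h3 := norm_q (e := e) (f : Qb →+* PadicAlgCl l)
      rw [hsl (f : Qb →+* PadicAlgCl l)] at h2
      change ‖f (pr s)‖ = _ at h2
      change ‖f ((l ^ e : ℕ) : Qb)‖ = _ at h3
      rw [h2, h3, Real.rpow_neg q_pos.le, Real.rpow_natCast, inv_pow, div_self]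
      exact inv_ne_zero (pow_ne_zero _ q_pos.ne')
    · have h2 : ‖f ((p ^ e : ℕ) : Qb)‖ = 1 := by
        rw [map_natCast]
        have h4 : (((p ^ e : ℕ)) : PadicAlgCl l) =
            (algebraMap ℚ_[l] (PadicAlgCl l)) ((p : ℚ_[l]) ^ e) := by
          push_cast
          simp
        have h5 : ‖((p : ℕ) : ℚ_[l])‖ = 1 := by
          rw [Padic.norm_natCast_eq_one_iff]
          exact (Nat.coprime_primes (Fact.out) (Fact.out)).2 hl
        rw [h4, PadicAlgCl.norm_extends, norm_pow, h5, one_pow]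
      rw [h2, one_pow, div_one]
      exact h1
  have hnorm : ∀ φ : Qb →+* ℂ, ‖φ x‖ = 1 := by
    intro φ
    have h1 := pr_norm_sq hQ s φ
    have h2 : ‖φ ((p ^ e : ℕ) : Qb)‖ = ((p ^ e : ℕ) : ℝ) := by
      rw [map_natCast, Complex.norm_natCast]
    have h3 : ‖φ x‖ ^ 2 = 1 := by
      rw [hx, map_div₀, map_pow, norm_div, norm_pow, div_pow, h1, h2, hj', pow_mul, ← pow_mul,
        ← pow_mul, mul_comm 2 j, div_self]
      exact pow_ne_zero _ q_pos.ne'
    exact (pow_eq_one_iff_of_nonneg (norm_nonneg _) two_ne_zero).1 h3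
  -- the field generated by `x`
  let L : IntermediateField ℚ Qb := IntermediateField.adjoin ℚ {x}
  have hxi : IsIntegral ℚ x := Algebra.IsIntegral.isIntegral x
  have hfd : FiniteDimensional ℚ L := IntermediateField.adjoin.finiteDimensional hxi
  let y : L := IntermediateField.AdjoinSimple.gen ℚ x
  have hy : (y : Qb) = x := IntermediateField.AdjoinSimple.coe_gen ℚ x
  have hyint : IsIntegral ℤ y := by
    have h1 : IsIntegral ℤ (algebraMap L Qb y) := by
      change IsIntegral ℤ (y : Qb)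
      rw [hy]
      exact hint
    exact (isIntegral_algebraMap_iff (algebraMap L Qb).injective).1 h1
  obtain ⟨m, hm, h1⟩ := pow_eq_one_of_norm y hyint (by
    intro φ
    let ψ : Qb →ₐ[ℚ] ℂ := by
      let _ : Algebra L ℂ := φ.toRingHom.toAlgebra
      have _ : IsScalarTower ℚ L ℂ := IsScalarTower.of_algebraMap_eq fun x => (φ.commutes x).symm
      exact (IsAlgClosed.lift : Qb →ₐ[L] ℂ).restrictScalars ℚ
    have h2 : ψ x = φ y := by
      let _ : Algebra L ℂ := φ.toRingHom.toAlgebra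
      have _ : IsScalarTower ℚ L ℂ := IsScalarTower.of_algebraMap_eq fun x => (φ.commutes x).symm
      have h3 := (IsAlgClosed.lift : Qb →ₐ[L] ℂ).commutes y
      change ψ ((y : Qb)) = φ y at h3
      rw [← hy]
      exact h3
    rw [← h2]
    exact hnorm (ψ : Qb →+* ℂ))
  refine ⟨j, m, hm, ?_, hj'⟩
  have h2 : x ^ m = 1 := by
    rw [← hy]
    exact_mod_cast congrArg (fun z : L => (z : Qb)) h1
  rw [hx, div_pow, div_eq_one_iff_eq (pow_ne_zero _ (pow_ne_zero _ hq0))] at h2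
  exact h2

end Pool.Agent.Q56.FD
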