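import Pool.Agent.Q56.FD.Main
import Pool.Agent.Y163.TateC

/-!
# The uniform one-half law for the poles of the zeta functions of the powers of a variety
-/

set_option autoImplicit false
set_option linter.unusedSectionVars false

open CategoryTheory AlgebraicGeometry
open scoped TensorProduct

universe u v

namespace Pool.Agent.Q56.FD

open Pool.Agent.H914 Pool.Agent.H447 Pool.Agent.H914.VarClass Pool.Agent.H914.VarClass.Obj
  Pool.Agent.H914.WeilCohomology Pool.Agent.H281R3.HT Pool.Agent.W534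
  Pool.Agent.W458.RK Pool.Agent.W458.MF Pool.Agent.W536.RR Pool.Agent.Y133.Half

variable {k : Type u} [Field k] {𝒱 : VarClass k} {ops : CycleOps 𝒱}
  {W : WeilCohomology.{u, v} ops} {p : ℕ} {Φ : FrobSystem W p} {X A B C D : 𝒱.Obj}
  {Q : ℕ → Polynomial ℤ} {τ : Qb →+* W.K} {Z Z' : 𝒱.Obj}

/-- The cohomology of `A` is a retract of the cohomology of `B`. -/
def CRetr (W : WeilCohomology.{u, v} ops) (A B : 𝒱.Obj) : Prop :=
  ∃ (s : A ⟶ B) (r : B ⟶ A), ∀ x : W.H A, W.map s (W.map r x) = x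

lemma CRetr.refl (A : 𝒱.Obj) : CRetr W A A :=
  ⟨𝟙 A, 𝟙 A, fun x => by rw [W.map_id, W.map_id]⟩

lemma CRetr.prod_swap (h : CRetr W A B) (h' : CRetr W C D) :
    CRetr W (A.prod C) (D.prod B) := by
  obtain ⟨s, r, hsr⟩ := h
  obtain ⟨s', r', hsr'⟩ := h'
  refine ⟨lift (snd A C ≫ s') (fst A C ≫ s), lift (snd D B ≫ r) (fst D B ≫ r'), fun x => ?_⟩
  obtain ⟨t, rfl⟩ := (W.kunneth A C).2 x
  induction t using TensorProduct.induction_on with
  | zero => rw [map_zero, map_zero, map_zero]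
  | add x y hx hy => rw [map_add, map_add, map_add, hx, hy]
  | tmul x y =>
    change W.map _ (W.map _ (W.map (fst A C) x * W.map (snd A C) y)) =
      W.map (fst A C) x * W.map (snd A C) y
    rw [map_mul, map_mul]
    congr 1
    · rw [← W.map_comp _ (fst A C), lift_fst, W.map_comp, ← W.map_comp _ (snd D B), lift_snd,
        W.map_comp, hsr]
    · rw [← W.map_comp _ (snd A C), lift_snd, W.map_comp, ← W.map_comp _ (fst D B), lift_fst,
        W.map_comp, hsr']

/-- going down along retracts -/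
lemma CRetr.TC (h : CRetr W A B) (hB : TC Φ B ≤ algSpan W B) : TC Φ A ≤ algSpan W A := by
  obtain ⟨s, r, hsr⟩ := h
  intro x hx
  have h1 := algSpan_map s (hB (TC.map r hx))
  rwa [hsr] at h1

lemma exists_hom_pw' (X : 𝒱.Obj) : ∀ n, Nonempty (X ⟶ Pool.Agent.Y163.pw X n)
  | 0 => ⟨𝟙 X⟩
  | n + 1 => ⟨lift (𝟙 X) (exists_hom_pw' X n).some⟩

lemma CRetr.of_hom (f : A ⟶ B) : CRetr W A (A.prod B) :=
  ⟨lift (𝟙 A) f, fst A B, fun x => by rw [← W.map_comp, lift_fst, W.map_id]⟩

lemma retr_zero (X : 𝒱.Obj) : ∀ n, CRetr W X (Pool.Agent.Y163.pw X n)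
  | 0 => CRetr.refl X
  | n + 1 => CRetr.of_hom (exists_hom_pw' X n).some

/-- the powers are retracts of the higher powers -/
lemma retr_pw (X : 𝒱.Obj) : ∀ m n, m ≤ n →
    CRetr W (pw X m) (Pool.Agent.Y163.pw X n) := by
  intro m
  induction m with
  | zero => exact fun n _ => retr_zero X n
  | succ m ih =>
    intro n hn
    obtain ⟨n, rfl⟩ : ∃ n', n = n' + 1 := ⟨n - 1, by omega⟩
    exact (ih n (by omega)).prod_swap (CRetr.refl X)

/-- The cohomology of the powers is spanned by words. -/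
theorem span_words' [IsAlgClosed W.K] (hQ : IsCharpoly Φ X Q) (hQ0 : ∀ i ≤ 2 * X.dim, Q i ≠ 0) :
    ∀ (n : ℕ) (z : W.H (Pool.Agent.Y163.pw X n)), z ∈ Submodule.span W.K
      (Set.range fun L : List (GLet Φ X Q τ (Pool.Agent.Y163.pw X n)) => wordVal L) := by
  intro n
  induction n with
  | zero => exact span_letters hQ hQ0
  | succ n ih =>
    intro z
    obtain ⟨t, rfl⟩ := (W.kunneth X (Pool.Agent.Y163.pw X n)).2 z
    induction t using TensorProduct.induction_on with
    | zero => rw [map_zero]; exact Submodule.zero_mem _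
    | add x y hx hy => rw [map_add]; exact Submodule.add_mem _ hx hy
    | tmul x y => exact word_mul (span_letters hQ hQ0 x) (ih y)

/-- The strong Tate conjecture implies the conjecture D. -/
lemma homEqNumIn_of_strong (h : ∀ j, SemisimpleTateIn Φ Z j) {j : ℕ} (hj : j ≤ Z.dim) :
    HomEqNumIn W Z j := by
  obtain ⟨l, hl⟩ := Nat.exists_eq_add_of_le hj
  intro z hz hnum
  obtain ⟨s, hs, hcyc⟩ := Φ.cyc hz
  have hz' : W.cl Z z ∈ genTate Φ Z s j := by
    refine ⟨eig_mem_gen ?_, W.cl_mem hz⟩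
    rw [card_pow]
    exact hcyc
  refine genTate_nondeg Φ hl.symm hz' fun y hy => ?_
  have hy' := h l s hs hy
  clear hy
  unfold spanCycles at hy'
  induction hy' using Submodule.span_induction with
  | mem y hy =>
    obtain ⟨r, hr, w, hw, rfl⟩ := hy
    obtain rfl : r = l := by exact_mod_cast hr
    rw [tr_mul_cl hz hw hl.symm, hnum w (by rwa [show Z.dim - j = r by omega]), Rat.cast_zero]
  | zero => rw [mul_zero, map_zero]
  | add x y _ _ hx hy => rw [mul_add, map_add, hx, hy, add_zero]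
  | smul a x _ hx => rw [mul_smul_comm, map_smul, hx, smul_zero]

section Fact

variable [Fact p.Prime] {b d : ℕ}

/-- The pole formula for one power implies the pole formula for all powers. -/
theorem pole_of_one [IsAlgClosed W.K] {σ : W.K →+* ℂ} (hRH : ∀ Z : 𝒱.Obj, RiemannHyp Φ σ Z)
    (hb : Module.finrank W.K (W.H X) ≤ b) (hd : X.dim ≤ d)
    (hP : ∀ i ≤ 2 * X.dim, ∃ P : Polynomial ℤ, IsFrobPoly p (p ^ Φ.e X) i P ∧
      P.map (algebraMap ℤ W.K) = charpolyOn (W.map (Φ.Fr X)).toLinearMap (W.gr X i))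
    (hT : ∀ j ≤ (Pool.Agent.Y163.pw X (powBound b d - 1)).dim,
      PoleFormula Φ σ (Pool.Agent.Y163.pw X (powBound b d - 1)) j) (n : ℕ) :
    ∀ j ≤ (Pool.Agent.Y163.pw X n).dim, PoleFormula Φ σ (Pool.Agent.Y163.pw X n) j := by
  classical
  have hp : 1 < p := (Fact.out : p.Prime).one_lt
  -- the strong Tate conjecture for the power
  have h1 : ∀ j, SemisimpleTateIn Φ (Pool.Agent.Y163.pw X (powBound b d - 1)) j := by
    intro j
    by_cases hj : j ≤ (Pool.Agent.Y163.pw X (powBound b d - 1)).dim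
    · obtain ⟨l, hl⟩ := Nat.exists_eq_add_of_le hj
      exact (semisimple_of_pole hp (hRH _) hl.symm (hT j hj)).1
    · intro s hs x hx
      have h2 := hx.2
      rw [W.gr_eq_bot _ (2 * j) (by omega)] at h2
      rw [(Submodule.mem_bot _).1 h2]
      exact Submodule.zero_mem _
  have h2 := (strong_iff _).1 h1
  have h3 : ∀ m < powBound b d, TC Φ (pw X m) ≤ algSpan W (pw X m) := fun m hm =>
    (retr_pw X m _ (by omega)).TC h2
  let Q : ℕ → Polynomial ℤ := fun i => if h : i ≤ 2 * X.dim then (hP i h).choose else 1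
  have hQ : ∀ i ≤ 2 * X.dim, IsFrobPoly p (p ^ Φ.e X) i (Q i) := by
    intro i hi
    simp only [Q, dif_pos hi]
    exact (hP i hi).choose_spec.1
  have hQc : IsCharpoly Φ X Q := by
    intro i hi
    simp only [Q, dif_pos hi]
    exact (hP i hi).choose_spec.2
  have hsum : ∑ i ∈ Finset.range (2 * X.dim + 1), (Q i).natDegree ≤ b := by
    rw [sum_natDegree hQc fun i hi => (hQ i hi).monic]
    exact hb
  let τ : Qb →+* W.K := (IsAlgClosed.lift : Qb →ₐ[ℚ] W.K).toRingHom
  have h4 : TC Φ (Pool.Agent.Y163.pw X n) ≤ algSpan W (Pool.Agent.Y163.pw X n) :=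
    TC_le_of (τ := τ) hQ hsum hd h3 (span_words' hQc (fun i hi => (hQ i hi).monic.ne_zero) n)
  have h5 := (strong_iff _).2 h4
  intro j hj
  rw [pole_iff_tate hp (hRH _) hj]
  refine ⟨fun c hc => ?_, homEqNumIn_of_strong h5 hj⟩
  obtain ⟨s, hs, hc'⟩ := IsTate.mem Φ hc
  exact h5 j s hs hc'

/-- The error term in the uniform one-half law. -/
noncomputable def errTerm (b d n : ℕ) : ℝ :=
  2 * powBound b d * (b : ℝ) ^ (2 * powBound b d + 2) * Real.log (n + 2) / n

lemma errTerm_tendsto (b d : ℕ) : Filter.Tendsto (errTerm b d) Filter.atTop (nhds 0) := by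
  have h1 : Filter.Tendsto (fun x : ℝ => Real.log x / x) Filter.atTop (nhds 0) := by
    have h := Real.isLittleO_log_id_atTop.tendsto_div_nhds_zero
    simpa using h
  have h2 : Filter.Tendsto (fun n : ℕ => Real.log ((n : ℝ) + 2) / ((n : ℝ) + 2)) Filter.atTop
      (nhds 0) := by
    have h3 : Filter.Tendsto (fun n : ℕ => (n : ℝ) + 2) Filter.atTop Filter.atTop :=
      Filter.tendsto_atTop_add_const_right _ _ tendsto_natCast_atTop_atTop
    exact h1.comp h3
  have h3 : Filter.Tendsto (fun n : ℕ => (1 : ℝ) + 2 / n) Filter.atTop (nhds 1) := by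
    have := (tendsto_const_div_atTop_nhds_zero_nat (2 : ℝ)).const_add 1
    simpa using this
  have h4 := (h2.mul h3).const_mul (2 * powBound b d * (b : ℝ) ^ (2 * powBound b d + 2))
  rw [zero_mul, mul_zero] at h4
  refine h4.congr' ?_
  filter_upwards [Filter.eventually_gt_atTop 0] with n hn
  have hn' : (n : ℝ) ≠ 0 := by exact_mod_cast hn.ne'
  have hn2 : (n : ℝ) + 2 ≠ 0 := by positivity
  rw [errTerm]
  field_simp

lemma powBound_pos (b d : ℕ) : 0 < powBound b d :=
  pow_pos (Nat.mul_pos (Nat.mul_pos (by norm_num) d.succ_pos) b.factorial_pos) _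

/-- **The uniform one-half law.** -/
theorem uniform_half [IsAlgClosed W.K] {σ : W.K →+* ℂ} (hRH : ∀ Z : 𝒱.Obj, RiemannHyp Φ σ Z)
    {D : X.Cycles} (hD : X.IsCyc 1 D) (hbig : Pool.Agent.Y163.Big ops X D)
    (hb : Module.finrank W.K (W.H X) ≤ b) (hd : X.dim ≤ d)
    (hP : ∀ i ≤ 2 * X.dim, ∃ P : Polynomial ℤ, IsFrobPoly p (p ^ Φ.e X) i P ∧
      P.map (algebraMap ℤ W.K) = charpolyOn (W.map (Φ.Fr X)).toLinearMap (W.gr X i)) :
    ∃ z r : ℕ → ℕ,
      (∀ n, Pool.Agent.Y163.PoleOrderIs Φ σ (Pool.Agent.Y163.sq X n) ((n + 1) * X.dim) (z n)) ∧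
      (∀ n, r n = numRank ops (Pool.Agent.Y163.sq X n) ((n + 1) * X.dim)) ∧
      (∀ n, 0 < r n ∧ r n ≤ z n) ∧
      ((∀ n, ∀ j ≤ (Pool.Agent.Y163.pw X n).dim, PoleFormula Φ σ (Pool.Agent.Y163.pw X n) j) ∨
        ∀ n, 0 < n → (2 - errTerm b d n) * r n ≤ z n) := by
  obtain ⟨z, h1, h2, -, h4⟩ :=
    Pool.Agent.Y163.tate_index' (W := W) (Fact.out : p.Prime).one_lt Φ σ hRH hD hbig
  refine ⟨z, fun n => numRank ops (Pool.Agent.Y163.sq X n) ((n + 1) * X.dim), h1, fun _ => rfl,
    h2, ?_⟩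
  by_cases hall : ∀ n, ∀ j ≤ (Pool.Agent.Y163.pw X n).dim,
      PoleFormula Φ σ (Pool.Agent.Y163.pw X n) j
  · exact Or.inl hall
  · right
    intro n hn
    by_contra hlt
    push Not at hlt
    apply hall
    intro m
    refine pole_of_one hRH hb hd hP (h4 (powBound b d - 1) n hn (lt_of_lt_of_le hlt ?_)) m
    refine mul_le_mul_of_nonneg_right ?_ (Nat.cast_nonneg _)
    refine sub_le_sub_left ?_ _
    have hN := powBound_pos b d
    have e1 : ((powBound b d - 1 : ℕ) : ℝ) + 1 = powBound b d := by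
      rw [Nat.cast_sub hN]
      push_cast
      ring
    have e2 : 2 * (powBound b d - 1) + 4 = 2 * powBound b d + 2 := by omega
    rw [e1, e2, errTerm]
    have hn' : (0 : ℝ) < n := by exact_mod_cast hn
    have hlog : 0 ≤ Real.log ((n : ℝ) + 2) := Real.log_nonneg (by linarith)
    have hfb : (Module.finrank W.K (W.H X) : ℝ) ≤ b := by exact_mod_cast hb
    gcongr

end Fact

end Pool.Agent.Q56.FD
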