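import Mathlib

/-!
# Frobenius polynomials: definitions
-/

set_option autoImplicit false

namespace Pool.Agent.Q56.FD

open Polynomial

/-- The number, counted with multiplicities, of the roots of slope `r` (relative to `q`) of the
polynomial `P` in an algebraic closure of `ℚ_p`, i.e. of the roots `x` with `‖x‖ = q ^ (-r)`. -/
noncomputable def slopeMult (p : ℕ) [Fact p.Prime] (q : ℕ) (P : ℤ[X]) (r : ℝ) : ℕ :=
  open Classical in
  Multiset.card ((P.aroots (PadicAlgCl p)).filter fun x => ‖x‖ = (q : ℝ) ^ (-r))

/-- `P` has the known properties of the characteristic polynomial of the Frobenius endomorphism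
relative to the field with `q` elements (a power of `p`) on the cohomology of degree `i` of a smooth
projective variety: it is monic with integral coefficients, its complex roots have absolute value
`q ^ (i / 2)` (Deligne), and for every slope `r` the product of `r` and of the number of roots of
slope `r` is an integer (Katz-Messing and Dieudonne-Manin: these are the slopes of the crystalline
cohomology). -/
structure IsFrobPoly (p : ℕ) [Fact p.Prime] (q i : ℕ) (P : ℤ[X]) : Prop where
  monic : P.Monic
  weil : ∀ z : ℂ, aeval z P = 0 → ‖z‖ ^ 2 = (q : ℝ) ^ i
  slopes : ∀ r : ℝ, ∃ m : ℤ, (slopeMult p q P r : ℝ) * r = m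

/-- The explicit constant. -/
def powBound (b d : ℕ) : ℕ := (4 * (d + 1) * b.factorial) ^ 2 ^ b

end Pool.Agent.Q56.FD
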