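import Pool.Agent.Q56.FD.Slope

/-!
# Balanced families of eigenvalues decompose into small balanced families
-/

set_option autoImplicit false

namespace Pool.Agent.Q56.FD

open Polynomial

variable {p : ℕ} [Fact p.Prime] {e : ℕ} {Q : ℕ → ℤ[X]} {M b d : ℕ}

lemma cast_sum {T R : Type*} [Ring R] (f : T → ℤ) (s : Multiset T) :
    (((s.map f).sum : ℤ) : R) = (s.map fun x => (f x : R)).sum := by
  induction s using Multiset.induction with
  | empty => simp
  | cons x s ih =>
    rw [Multiset.map_cons, Multiset.sum_cons, Multiset.map_cons, Multiset.sum_cons, Int.cast_add,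
      ih]

lemma natDegree_le (hb : ∑ i ∈ Finset.range (M + 1), (Q i).natDegree ≤ b) {i : ℕ} (hi : i ≤ M) :
    (Q i).natDegree ≤ b :=
  (Finset.single_le_sum (f := fun i => (Q i).natDegree) (fun _ _ => Nat.zero_le _)
    (Finset.mem_range.2 (Nat.lt_succ_of_le hi))).trans hb

/-- the finite set of all letters -/
noncomputable def lets (Q : ℕ → ℤ[X]) (M : ℕ) : Finset (Σ _ : ℕ, Qb) :=
  open Classical in (Finset.range (M + 1)).sigma fun i => ((Q i).aroots Qb).toFinset

lemma card_lets_le (hb : ∑ i ∈ Finset.range (M + 1), (Q i).natDegree ≤ b) :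
    (lets Q M).card ≤ b := by
  classical
  rw [lets, Finset.card_sigma]
  refine (Finset.sum_le_sum fun i _ => ?_).trans hb
  refine (Multiset.toFinset_card_le _).trans ((Polynomial.card_roots' _).trans ?_)
  exact Polynomial.natDegree_map_le

/-- the inclusion -/
noncomputable def toLets (hQ : ∀ i ≤ M, IsFrobPoly p (p ^ e) i (Q i)) (x : Letter Q M) :
    lets Q M := ⟨⟨x.1.1, x.1.2⟩, by
  classical
  rw [lets, Finset.mem_sigma, Finset.mem_range, Multiset.mem_toFinset, mem_aroots]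
  exact ⟨Nat.lt_succ_of_le x.2.1, (hQ _ x.2.1).monic.ne_zero, x.2.2⟩⟩

lemma toLets_injective (hQ : ∀ i ≤ M, IsFrobPoly p (p ^ e) i (Q i)) :
    Function.Injective (toLets hQ) := by
  rintro ⟨⟨i, a⟩, h⟩ ⟨⟨j, c⟩, h'⟩ hxy
  have h1 := congrArg Subtype.val hxy
  simp only [toLets, Sigma.mk.injEq, heq_eq_eq] at h1
  obtain ⟨rfl, rfl⟩ := h1
  rfl

lemma finite_letter (hQ : ∀ i ≤ M, IsFrobPoly p (p ^ e) i (Q i)) : Finite (Letter Q M) :=
  Finite.of_injective _ (toLets_injective hQ)

lemma card_letter_le (hQ : ∀ i ≤ M, IsFrobPoly p (p ^ e) i (Q i))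
    (hb : ∑ i ∈ Finset.range (M + 1), (Q i).natDegree ≤ b) : Nat.card (Letter Q M) ≤ b := by
  refine (Nat.card_le_card_of_injective _ (toLets_injective hQ)).trans ?_
  rw [Nat.card_eq_fintype_card, Fintype.card_coe]
  exact card_lets_le hb

/-- the integral coordinates -/
lemma exists_int (he : 0 < e) (hQ : ∀ i ≤ M, IsFrobPoly p (p ^ e) i (Q i))
    (hb : ∑ i ∈ Finset.range (M + 1), (Q i).natDegree ≤ b) (ι : Qb →+* PadicAlgCl p)
    (x : Letter Q M) : ∃ z : ℤ, (z : ℝ) = b.factorial * cs (p ^ e) ι x := by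
  obtain ⟨z, hz⟩ := sl_int he (hQ _ x.2.1) x.2.2 ι (natDegree_le hb x.2.1)
  refine ⟨2 * z - b.factorial * x.1.1, ?_⟩
  push_cast
  rw [← hz, cs]
  ring

/-- the integral coordinates -/
noncomputable def cI (he : 0 < e) (hQ : ∀ i ≤ M, IsFrobPoly p (p ^ e) i (Q i))
    (hb : ∑ i ∈ Finset.range (M + 1), (Q i).natDegree ≤ b) (ι : Qb →+* PadicAlgCl p)
    (x : Letter Q M) : ℤ := (exists_int he hQ hb ι x).choose

lemma cI_eq (he : 0 < e) (hQ : ∀ i ≤ M, IsFrobPoly p (p ^ e) i (Q i))
    (hb : ∑ i ∈ Finset.range (M + 1), (Q i).natDegree ≤ b) (ι : Qb →+* PadicAlgCl p)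
    (x : Letter Q M) : (cI he hQ hb ι x : ℝ) = b.factorial * cs (p ^ e) ι x :=
  (exists_int he hQ hb ι x).choose_spec

lemma cI_abs (he : 0 < e) (hQ : ∀ i ≤ M, IsFrobPoly p (p ^ e) i (Q i))
    (hb : ∑ i ∈ Finset.range (M + 1), (Q i).natDegree ≤ b) (hM : M ≤ 2 * d)
    (ι : Qb →+* PadicAlgCl p) (x : Letter Q M) :
    |cI he hQ hb ι x| ≤ (2 * ((d + 1) * b.factorial) : ℕ) := by
  have h1 : |(cI he hQ hb ι x : ℝ)| ≤ ((2 * ((d + 1) * b.factorial) : ℕ) : ℝ) := by
    rw [cI_eq, abs_mul, Nat.abs_cast]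
    have h2 := sl_nonneg he (hQ _ x.2.1) x.2.2 ι
    have h3 := sl_le he (hQ _ x.2.1) x.2.2 ι
    have h4 : |cs (p ^ e) ι x| ≤ x.1.1 := by
      rw [cs, abs_le]
      constructor <;> linarith
    have h5 : (x.1.1 : ℝ) ≤ 2 * d := by
      exact_mod_cast x.2.1.trans hM
    have h6 : (0 : ℝ) ≤ b.factorial := Nat.cast_nonneg _
    calc (b.factorial : ℝ) * |cs (p ^ e) ι x| ≤ b.factorial * (2 * d) :=
          mul_le_mul_of_nonneg_left (h4.trans h5) h6
      _ ≤ ((2 * ((d + 1) * b.factorial) : ℕ) : ℝ) := by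
        push_cast
        nlinarith
  exact_mod_cast h1

lemma cI_sum (he : 0 < e) (hQ : ∀ i ≤ M, IsFrobPoly p (p ^ e) i (Q i))
    (hb : ∑ i ∈ Finset.range (M + 1), (Q i).natDegree ≤ b) (ι : Qb →+* PadicAlgCl p)
    (s : Multiset (Letter Q M)) : (((s.map fun x => cI he hQ hb ι x).sum : ℤ) : ℝ) =
      b.factorial * (s.map fun x => cs (p ^ e) ι x).sum := by
  induction s using Multiset.induction with
  | empty => simp
  | cons x s ih =>
    rw [Multiset.map_cons, Multiset.sum_cons, Multiset.map_cons, Multiset.sum_cons, Int.cast_add,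
      ih, cI_eq]
    ring

lemma cI_sum_zero_iff (he : 0 < e) (hQ : ∀ i ≤ M, IsFrobPoly p (p ^ e) i (Q i))
    (hb : ∑ i ∈ Finset.range (M + 1), (Q i).natDegree ≤ b) (ι : Qb →+* PadicAlgCl p)
    (s : Multiset (Letter Q M)) : (s.map fun x => cI he hQ hb ι x).sum = 0 ↔
      (s.map fun x => cs (p ^ e) ι x).sum = 0 := by
  have h1 := cI_sum he hQ hb ι s
  have h2 : (b.factorial : ℝ) ≠ 0 := by exact_mod_cast b.factorial_ne_zero
  constructor
  · intro h
    rw [h, Int.cast_zero] at h1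
    exact (mul_eq_zero.1 h1.symm).resolve_left h2
  · intro h
    rw [h, mul_zero] at h1
    exact_mod_cast h1

/-- Finitely many places are enough. -/
lemma exists_places (he : 0 < e) (hQ : ∀ i ≤ M, IsFrobPoly p (p ^ e) i (Q i))
    (hb : ∑ i ∈ Finset.range (M + 1), (Q i).natDegree ≤ b) :
    ∃ r ≤ b, ∃ ι : Fin r → (Qb →+* PadicAlgCl p), ∀ s : Multiset (Letter Q M),
      (∀ k, (s.map fun x => cI he hQ hb (ι k) x).sum = 0) →
        ∀ ι' : Qb →+* PadicAlgCl p, (s.map fun x => cI he hQ hb ι' x).sum = 0 := by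
  classical
  have hfin := finite_letter hQ
  let _ : Fintype (Letter Q M) := Fintype.ofFinite _
  let v : (Qb →+* PadicAlgCl p) → (Letter Q M → ℚ) := fun ι x => (cI he hQ hb ι x : ℚ)
  obtain ⟨B, hBv, hspan, hli⟩ := exists_linearIndependent ℚ (Set.range v)
  have hBfin : Finite B := hli.finite
  let _ : Fintype B := Fintype.ofFinite _
  have hcard : Fintype.card B ≤ b := by
    refine hli.fintype_card_le_finrank.trans ?_
    rw [Module.finrank_fintype_fun_eq_card, ← Nat.card_eq_fintype_card]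
    exact card_letter_le hQ hb
  have hch : ∀ w : B, ∃ ι, v ι = w.1 := fun w => hBv w.2
  choose g hg using hch
  refine ⟨Fintype.card B, hcard, fun k => g ((Fintype.equivFin B).symm k), fun s hs ι' => ?_⟩
  have key : ∀ w ∈ Submodule.span ℚ B, (s.map w).sum = 0 := by
    intro w hw
    induction hw using Submodule.span_induction with
    | mem w hw =>
      have h1 := hs (Fintype.equivFin B ⟨w, hw⟩)
      simp only [Equiv.symm_apply_apply] at h1
      have h2 := hg ⟨w, hw⟩
      have h3 : (s.map w).sum = (((s.map fun x => cI he hQ hb (g ⟨w, hw⟩) x).sum : ℤ) : ℚ) := by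
        rw [cast_sum]
        congr 1
        exact congrArg (fun f => s.map f) h2.symm
      rw [h3, h1, Int.cast_zero]
    | zero => simp
    | add w w' _ _ h h' =>
      have h1 : (s.map (w + w')).sum = (s.map w).sum + (s.map w').sum := Multiset.sum_map_add
      rw [h1, h, h', add_zero]
    | smul c w _ h =>
      have h1 : (s.map (c • w)).sum = c * (s.map w).sum := Multiset.sum_map_mul_left
      rw [h1, h, mul_zero]
  have h1 : v ι' ∈ Submodule.span ℚ B := by
    rw [hspan]
    exact Submodule.subset_span ⟨ι', rfl⟩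
  have h2 := key _ h1
  have h3 : (s.map (v ι')).sum = (((s.map fun x => cI he hQ hb ι' x).sum : ℤ) : ℚ) :=
    (cast_sum _ _).symm
  rw [h3] at h2
  exact_mod_cast h2

/-- **Small balanced blocks.** A nonempty balanced family of eigenvalues contains a nonempty
balanced family with at most `powBound b d` members. -/
theorem exists_bal_block {T : Type*} (lab : T → Letter Q M) (he : 0 < e)
    (hQ : ∀ i ≤ M, IsFrobPoly p (p ^ e) i (Q i))
    (hb : ∑ i ∈ Finset.range (M + 1), (Q i).natDegree ≤ b) (hM : M ≤ 2 * d)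
    (s : Multiset T) (hs : s ≠ 0) (hd : Even (dg (s.map lab)))
    (h : ∀ ι : Qb →+* PadicAlgCl p, ((s.map lab).map fun x => cs (p ^ e) ι x).sum = 0) :
    ∃ s' ≤ s, s' ≠ 0 ∧ Multiset.card s' ≤ powBound b d ∧ Even (dg (s'.map lab)) ∧
      ∀ ι : Qb →+* PadicAlgCl p, ((s'.map lab).map fun x => cs (p ^ e) ι x).sum = 0 := by
  classical
  obtain ⟨r, hr, ι, hι⟩ := exists_places he hQ hb
  let c : T → ℕ → ℤ := fun x k => if hk : k < r then cI he hQ hb (ι ⟨k, hk⟩) (lab x) else 0
  have hD : 1 ≤ 2 * ((d + 1) * b.factorial) := by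
    have := Nat.mul_pos d.succ_pos b.factorial_pos
    have h1 : d.succ = d + 1 := rfl
    rw [h1] at this
    omega
  have hc : ∀ x k, |c x k| ≤ (2 * ((d + 1) * b.factorial) : ℕ) := by
    intro x k
    simp only [c]
    split_ifs with hk
    · exact cI_abs he hQ hb hM _ _
    · rw [abs_zero]
      exact Int.natCast_nonneg _
  have hck : ∀ (k : ℕ) (hk : k < r) (u : Multiset T),
      (u.map fun x => c x k).sum =
        ((u.map lab).map fun x => cI he hQ hb (ι ⟨k, hk⟩) x).sum := by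
    intro k hk u
    simp only [c, dif_pos hk, Multiset.map_map, Function.comp_apply]
  have hdg : ∀ u : Multiset T, (u.map fun x => (lab x).1.1).sum = dg (u.map lab) := by
    intro u
    rw [dg, Multiset.map_map]
    rfl
  obtain ⟨s', hle, hne, hcard, h0, hev⟩ := exists_even_block hD hc (fun x => (lab x).1.1) r s hs
    (fun k hk => by
      rw [hck k hk, cI_sum_zero_iff]
      exact h _) (by rw [hdg]; exact hd)
  refine ⟨s', hle, hne, hcard.trans ?_, by rw [← hdg]; exact hev, fun ι' => ?_⟩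
  · rw [powBound, show 2 * (2 * ((d + 1) * b.factorial)) = 4 * (d + 1) * b.factorial by ring]
    refine Nat.pow_le_pow_right ?_ (Nat.pow_le_pow_right two_pos hr)
    have := Nat.mul_pos d.succ_pos b.factorial_pos
    have h1 : d.succ = d + 1 := rfl
    rw [h1] at this
    nlinarith
  · rw [← cI_sum_zero_iff he hQ hb]
    refine hι (s'.map lab) (fun k => ?_) ι'
    have h1 := h0 k.1 k.2
    rwa [hck k.1 k.2] at h1

end Pool.Agent.Q56.FD
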