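import Pool.Agent.Q56.FD.Coord
import Pool.Agent.Y133.Half.TrueTate
import Pool.Agent.TH121.KT.Word3
import Pool.Agent.W458.RK.Lin
import Pool.Agent.W397.MF.PAIR

/-!
# Words of generalised eigenvectors
-/

set_option autoImplicit false
set_option linter.unusedSectionVars false

open CategoryTheory AlgebraicGeometry
open scoped TensorProduct

universe u v

namespace Pool.Agent.Q56.FD

open Pool.Agent.H914 Pool.Agent.H914.VarClass Pool.Agent.H914.VarClass.Obj
  Pool.Agent.H914.WeilCohomology Pool.Agent.H281R3.HT Pool.Agent.W534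
  Pool.Agent.W458.RK Pool.Agent.W458.MF Pool.Agent.W536.RR Pool.Agent.Y133.Half

open Polynomial (aeval)

variable {k : Type u} [Field k] {𝒱 : VarClass k} {ops : CycleOps 𝒱}
  {W : WeilCohomology.{u, v} ops} {p : ℕ} {Φ : FrobSystem W p} {X : 𝒱.Obj}
  {Q : ℕ → Polynomial ℤ} {τ : Qb →+* W.K} {Z Z' : 𝒱.Obj}

/-- a pulled back generalised eigenvector of the Frobenius endomorphism -/
structure GLet (Φ : FrobSystem W p) (X : 𝒱.Obj) (Q : ℕ → Polynomial ℤ) (τ : Qb →+* W.K)
    (Z : 𝒱.Obj) where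
  f : Z ⟶ X
  lab : Letter Q (2 * X.dim)
  x : W.H X
  hx : x ∈ W.gr X lab.1.1
  hg : x ∈ (frob Φ X 1).maxGenEigenspace (τ lab.1.2)

namespace GLet

/-- the class -/
noncomputable def val (l : GLet Φ X Q τ Z) : W.H Z := W.map l.f l.x

/-- pull-back of letters -/
noncomputable def pull (g : Z' ⟶ Z) (l : GLet Φ X Q τ Z) : GLet Φ X Q τ Z' :=
  ⟨g ≫ l.f, l.lab, l.x, l.hx, l.hg⟩

lemma val_pull (g : Z' ⟶ Z) (l : GLet Φ X Q τ Z) : (l.pull g).val = W.map g l.val :=
  W.map_comp g l.f l.x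

lemma val_mem (l : GLet Φ X Q τ Z) : l.val ∈ W.gr Z l.lab.1.1 := W.map_mem _ l.hx

/-- the eigenvalue at the level `s` -/
def At (l : GLet Φ X Q τ Z) (s : ℕ) : Prop :=
  ∀ s', s' * Φ.e X = s * Φ.e Z →
    l.val ∈ (frob Φ Z s).maxGenEigenspace ((τ l.lab.1.2) ^ s')

lemma exists_at (l : GLet Φ X Q τ Z) : ∃ a : ℕ, 0 < a ∧ (∃ s₁, s₁ * Φ.e X = a * Φ.e Z) ∧
    ∀ t, 0 < t → l.At (a * t) := by
  obtain ⟨f, lab, x, hx, hg⟩ := l
  obtain ⟨a, ha, h⟩ := exists_comm Φ f
  refine ⟨a, ha, ?_, fun t ht s'' hs'' => ?_⟩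
  · obtain ⟨s', _, hss, _⟩ := h 1 one_pos
    exact ⟨s', by rw [mul_one] at hss; exact hss⟩
  · obtain ⟨s', _, hss, hcomm⟩ := h t ht
    obtain rfl : s'' = s' := Nat.eq_of_mul_eq_mul_right (Φ.e_pos X) (hs''.trans hss.symm)
    change W.map f x ∈ _
    have h1 : x ∈ (frob Φ X s'').maxGenEigenspace ((τ lab.1.2) ^ s'') := by
      have h2 := gen_pow_of_gen hg s''
      rwa [← frob_mul_eq, one_mul] at h2
    have h2 := gen_map (θ := (W.map f).toLinearMap) (T := frob Φ X s'') (T' := frob Φ Z (a * t))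
      (c := 1) (fun y => by
        rw [one_smul]
        exact hcomm y) h1
    rwa [one_mul] at h2

end GLet

/-- the class of a list of letters -/
noncomputable def wordVal (L : List (GLet Φ X Q τ Z)) : W.H Z := (L.map GLet.val).prod

/-- the labels of a list of letters -/
def labs (L : List (GLet Φ X Q τ Z)) : Multiset (Letter Q (2 * X.dim)) :=
  (L : Multiset (GLet Φ X Q τ Z)).map GLet.lab

lemma labs_nil : labs ([] : List (GLet Φ X Q τ Z)) = 0 := rfl

lemma labs_cons (a : GLet Φ X Q τ Z) (L : List (GLet Φ X Q τ Z)) :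
    labs (a :: L) = a.lab ::ₘ labs L := by
  rw [labs, ← Multiset.cons_coe, Multiset.map_cons]
  rfl

lemma wordVal_nil : wordVal ([] : List (GLet Φ X Q τ Z)) = 1 := rfl

lemma wordVal_cons (a : GLet Φ X Q τ Z) (L : List (GLet Φ X Q τ Z)) :
    wordVal (a :: L) = a.val * wordVal L := by
  rw [wordVal, List.map_cons, List.prod_cons]
  rfl

lemma wordVal_append (L L' : List (GLet Φ X Q τ Z)) :
    wordVal (L ++ L') = wordVal L * wordVal L' := by
  rw [wordVal, List.map_append, List.prod_append]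
  rfl

lemma wordVal_mem (L : List (GLet Φ X Q τ Z)) : wordVal L ∈ W.gr Z (dg (labs L)) := by
  induction L with
  | nil => exact W.one_mem Z
  | cons a L ih =>
    rw [wordVal_cons, labs_cons, dg_cons]
    exact W.mul_mem a.val_mem ih

lemma wordVal_pull (g : Z' ⟶ Z) (L : List (GLet Φ X Q τ Z)) :
    wordVal (L.map (GLet.pull g)) = W.map g (wordVal L) := by
  induction L with
  | nil => rw [List.map_nil, wordVal_nil, wordVal_nil, map_one]
  | cons a L ih => rw [List.map_cons, wordVal_cons, wordVal_cons, map_mul, ih, GLet.val_pull]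

lemma labs_pull (g : Z' ⟶ Z) (L : List (GLet Φ X Q τ Z)) :
    labs (L.map (GLet.pull g)) = labs L := by
  induction L with
  | nil => rfl
  | cons a L ih =>
    rw [List.map_cons, labs_cons, labs_cons, ih]
    rfl

/-- permutations -/
lemma wordVal_perm {L L' : List (GLet Φ X Q τ Z)} (h : L.Perm L') :
    ∃ c : W.K, wordVal L = c • wordVal L' := by
  induction h with
  | nil => exact ⟨1, (one_smul _ _).symm⟩
  | cons a _ ih =>
    obtain ⟨c, hc⟩ := ih
    exact ⟨c, by rw [wordVal_cons, wordVal_cons, hc, mul_smul_comm]⟩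
  | swap a b L =>
    refine ⟨(-1) ^ (b.lab.1.1 * a.lab.1.1), ?_⟩
    rw [wordVal_cons, wordVal_cons, wordVal_cons, wordVal_cons, ← mul_assoc,
      W.comm b.val_mem a.val_mem, smul_mul_assoc, mul_assoc]
  | trans _ _ ih ih' =>
    obtain ⟨c, hc⟩ := ih
    obtain ⟨c', hc'⟩ := ih'
    exact ⟨c * c', by rw [hc, hc', smul_smul]⟩

/-- the eigenvalue of a word -/
lemma word_gen {s s' : ℕ} (hs : s' * Φ.e X = s * Φ.e Z) (L : List (GLet Φ X Q τ Z))
    (hL : ∀ l ∈ L, l.At s) :
    wordVal L ∈ (frob Φ Z s).maxGenEigenspace ((τ (pr (labs L))) ^ s') := by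
  induction L with
  | nil =>
    apply eig_mem_gen
    rw [wordVal_nil, frob_one, labs_nil, pr, Multiset.map_zero, Multiset.prod_zero, map_one,
      one_pow, one_smul]
  | cons a L ih =>
    have h1 := ih fun l hl => hL l (List.mem_cons_of_mem _ hl)
    have h2 := hL a List.mem_cons_self s' hs
    rw [wordVal_cons, labs_cons, pr_cons, map_mul, mul_pow]
    exact gen_bilin (β := LinearMap.mul W.K (W.H Z)) (fun a b =>
      (frob_mul_apply Φ s a b).symm) h2 h1

/-- a good level for a word -/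
lemma word_level (L : List (GLet Φ X Q τ Z)) (hL : L ≠ []) : ∃ a : ℕ, 0 < a ∧
    (∃ s₁, s₁ * Φ.e X = a * Φ.e Z) ∧ ∀ t, 0 < t → ∀ l ∈ L, l.At (a * t) := by
  induction L with
  | nil => exact absurd rfl hL
  | cons b L ih =>
    obtain ⟨a', ha', ⟨s₁, hs₁⟩, h'⟩ := b.exists_at
    by_cases hL' : L = []
    · subst hL'
      refine ⟨a', ha', ⟨s₁, hs₁⟩, fun t ht l hl => ?_⟩
      rw [List.mem_singleton] at hl
      subst hl
      exact h' t ht
    · obtain ⟨a, ha, _, h⟩ := ih hL'
      refine ⟨a' * a, Nat.mul_pos ha' ha, ⟨s₁ * a, ?_⟩, fun t ht l hl => ?_⟩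
      · calc s₁ * a * Φ.e X = (s₁ * Φ.e X) * a := by ring
          _ = a' * a * Φ.e Z := by rw [hs₁]; ring
      · rcases List.mem_cons.1 hl with rfl | hl
        · have := h' (a * t) (Nat.mul_pos ha ht)
          rwa [← mul_assoc] at this
        · have := h (a' * t) (Nat.mul_pos ha' ht) l hl
          rwa [show a * (a' * t) = a' * a * t by ring] at this

/-- words of a given length come from a power -/
lemma exists_pull : ∀ (n : ℕ) (L : List (GLet Φ X Q τ Z)), L.length = n + 1 →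
    ∃ (g : Z ⟶ pw X n) (L' : List (GLet Φ X Q τ (pw X n))), L = L'.map (GLet.pull g) := by
  intro n
  induction n with
  | zero =>
    intro L hL
    obtain ⟨a, rfl⟩ := List.length_eq_one_iff.1 hL
    refine ⟨a.f, [⟨𝟙 X, a.lab, a.x, a.hx, a.hg⟩], ?_⟩
    rw [List.map_cons, List.map_nil]
    obtain ⟨f, lab, x, hx, hg⟩ := a
    change [(⟨f, lab, x, hx, hg⟩ : GLet Φ X Q τ Z)] = [⟨f ≫ 𝟙 X, lab, x, hx, hg⟩]
    rw [Category.comp_id]
  | succ n ih =>
    intro L hL
    rcases L with _ | ⟨a, L⟩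
    · exact absurd hL (by simp)
    · rw [List.length_cons] at hL
      obtain ⟨g, L', hL'⟩ := ih L (by omega)
      let h : Z ⟶ (pw X n).prod X := lift g a.f
      refine ⟨h, ⟨snd (pw X n) X, a.lab, a.x, a.hx, a.hg⟩ ::
        L'.map (GLet.pull (fst (pw X n) X)), ?_⟩
      rw [List.map_cons, List.map_map]
      congr 1
      · obtain ⟨f, lab, x, hx, hg⟩ := a
        unfold GLet.pull
        congr 1
        exact (lift_snd g f).symm
      · rw [hL']
        apply List.map_congr_left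
        intro l _
        obtain ⟨f, lab, x, hx, hg⟩ := l
        change (⟨g ≫ f, lab, x, hx, hg⟩ : GLet Φ X Q τ Z) =
          ⟨h ≫ fst (pw X n) X ≫ f, lab, x, hx, hg⟩
        congr 1
        rw [← Category.assoc]
        exact congrArg (· ≫ f) (lift_fst g a.f).symm

/-- balanced words are Tate classes -/
lemma word_TC {L : List (GLet Φ X Q τ Z)} (hL : L ≠ []) (hb : Bal (p ^ Φ.e X) (labs L)) :
    wordVal L ∈ TC Φ Z := by
  obtain ⟨j, m, hm, hpr, hdg⟩ := hb
  obtain ⟨a, ha, ⟨s₁, hs₁⟩, hat⟩ := word_level L hL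
  have hs : (s₁ * m) * Φ.e X = a * m * Φ.e Z := by
    calc s₁ * m * Φ.e X = (s₁ * Φ.e X) * m := by ring
      _ = _ := by rw [hs₁]; ring
  have h1 := word_gen hs L (hat m hm)
  refine TC.of (Nat.mul_pos ha hm) (j := j) ⟨?_, ?_⟩
  · have h2 : (τ (pr (labs L))) ^ (s₁ * m) = (card Φ Z (a * m) : W.K) ^ j := by
      rw [mul_comm s₁ m, pow_mul, ← map_pow, hpr, card_pow, map_pow, map_pow, map_natCast,
        Nat.cast_pow, ← pow_mul, ← pow_mul, ← pow_mul]
      congr 1
      calc Φ.e X * (j * (m * s₁)) = (s₁ * m * Φ.e X) * j := by ring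
        _ = _ := by rw [hs]; ring
    rw [h2] at h1
    exact h1
  · rw [← hdg]
    exact wordVal_mem L

lemma block_alg {m : ℕ} (hT : TC Φ (pw X m) ≤ algSpan W (pw X m)) {L : List (GLet Φ X Q τ Z)}
    (hL : L.length = m + 1) (hb : Bal (p ^ Φ.e X) (labs L)) : wordVal L ∈ algSpan W Z := by
  obtain ⟨g, L', rfl⟩ := exists_pull m L hL
  rw [wordVal_pull]
  rw [labs_pull] at hb
  refine algSpan_map g (hT (word_TC ?_ hb))
  rintro rfl
  rw [List.map_nil, List.length_nil] at hL
  omega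

section Fact

variable [Fact p.Prime] {b d : ℕ}

/-- **Balanced words are algebraic.** -/
theorem balanced_alg (hQ : ∀ i ≤ 2 * X.dim, IsFrobPoly p (p ^ Φ.e X) i (Q i))
    (hb : ∑ i ∈ Finset.range (2 * X.dim + 1), (Q i).natDegree ≤ b) (hd : X.dim ≤ d)
    (hT : ∀ m < powBound b d, TC Φ (pw X m) ≤ algSpan W (pw X m)) :
    ∀ (n : ℕ) (L : List (GLet Φ X Q τ Z)), L.length ≤ n → Bal (p ^ Φ.e X) (labs L) →
      wordVal L ∈ algSpan W Z := by
  classical
  intro n
  induction n with
  | zero =>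
    intro L hL _
    rw [List.length_eq_zero_iff.1 (Nat.le_zero.1 hL), wordVal_nil]
    exact one_mem_algSpan
  | succ n ih =>
    intro L hL hbal
    by_cases hL0 : L = []
    · rw [hL0, wordVal_nil]
      exact one_mem_algSpan
    have hbal' := hbal
    obtain ⟨j, m, hm, hpr, _⟩ := hbal
    obtain ⟨hdg, hsum⟩ := Bal.sum_zero (Φ.e_pos X) hQ hm hpr
    have hev : Even (dg (labs L)) := ⟨j, by omega⟩
    obtain ⟨s', hle, hne, hcard, hev', hsum'⟩ := exists_bal_block GLet.lab (Φ.e_pos X) hQ hb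
      (show 2 * X.dim ≤ 2 * d by omega) (L : Multiset (GLet Φ X Q τ Z))
      (by rwa [ne_eq, Multiset.coe_eq_zero]) hev hsum
    obtain ⟨u, hu⟩ := Multiset.le_iff_exists_add.1 hle
    have h1 : (s'.toList : Multiset (GLet Φ X Q τ Z)) = s' := Multiset.coe_toList s'
    have h2 : (u.toList : Multiset (GLet Φ X Q τ Z)) = u := Multiset.coe_toList u
    have hperm : L.Perm (s'.toList ++ u.toList) := by
      rw [← Multiset.coe_eq_coe, ← Multiset.coe_add, h1, h2]
      exact hu
    obtain ⟨c, hc⟩ := wordVal_perm hperm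
    rw [hc, wordVal_append]
    have hl1 : labs s'.toList = s'.map GLet.lab := by rw [labs, h1]
    have hl2 : labs u.toList = u.map GLet.lab := by rw [labs, h2]
    have hlL : labs L = s'.map GLet.lab + u.map GLet.lab := by
      rw [labs, hu, Multiset.map_add]
    refine Submodule.smul_mem _ _ (algSpan_mul ?_ (ih _ ?_ ?_))
    · have hpos : 0 < Multiset.card s' := Multiset.card_pos.2 hne
      refine block_alg (m := Multiset.card s' - 1) (hT _ (by omega)) ?_ ?_
      · rw [Multiset.length_toList]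
        omega
      · rw [hl1]
        exact bal_of_sum_zero (Φ.e_pos X) hQ hev' hsum'
    · have h3 := hperm.length_eq
      rw [List.length_append, Multiset.length_toList] at h3
      have hpos : 0 < Multiset.card s' := Multiset.card_pos.2 hne
      omega
    · rw [hl2]
      refine bal_of_sum_zero (Φ.e_pos X) hQ ?_ fun ι => ?_
      · have h3 : dg (labs L) = dg (s'.map GLet.lab) + dg (u.map GLet.lab) := by
          rw [hlL, dg, Multiset.map_add, Multiset.sum_add]
          rfl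
        rw [h3] at hev
        exact (Nat.even_add.1 hev).1 hev'
      · have h3 := hsum ι
        rw [hlL, Multiset.map_add, Multiset.sum_add, hsum' ι, zero_add] at h3
        exact h3

end Fact

end Pool.Agent.Q56.FD
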