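import Pool.Agent.Q56.FD.Geo

/-!
# One power of a variety determines the Tate conjecture for all powers
-/

set_option autoImplicit false
set_option linter.unusedSectionVars false

open CategoryTheory AlgebraicGeometry
open scoped TensorProduct

universe u v

namespace Pool.Agent.Q56.FD

open Pool.Agent.H914 Pool.Agent.H914.VarClass Pool.Agent.H914.VarClass.Obj
  Pool.Agent.H914.WeilCohomology Pool.Agent.H281R3.HT Pool.Agent.W534
  Pool.Agent.W458.RK Pool.Agent.W458.MF Pool.Agent.W536.RR Pool.Agent.Y133.Half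

open Polynomial (aeval)

variable {k : Type u} [Field k] {𝒱 : VarClass k} {ops : CycleOps 𝒱}
  {W : WeilCohomology.{u, v} ops} {p : ℕ} {Φ : FrobSystem W p} {X : 𝒱.Obj}
  {Q : ℕ → Polynomial ℤ} {τ : Qb →+* W.K} {Z Z' : 𝒱.Obj}

/-- The polynomials are the characteristic polynomials of the Frobenius endomorphism. -/
def IsCharpoly (Φ : FrobSystem W p) (X : 𝒱.Obj) (Q : ℕ → Polynomial ℤ) : Prop :=
  ∀ i ≤ 2 * X.dim, (Q i).map (algebraMap ℤ W.K) =
    charpolyOn (W.map (Φ.Fr X)).toLinearMap (W.gr X i)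

lemma root_of_gen [IsAlgClosed W.K] (hQ : IsCharpoly Φ X Q) {i : ℕ} (hi : i ≤ 2 * X.dim)
    {z : W.H X} (hz : z ∈ W.gr X i) :
    z ∈ Submodule.span W.K {x | ∃ ν : W.K, aeval ν (Q i) = 0 ∧ x ∈ W.gr X i ∧
      x ∈ (frob Φ X 1).maxGenEigenspace ν} := by
  have hinv : ∀ x ∈ W.gr X i, (W.map (Φ.Fr X)).toLinearMap x ∈ W.gr X i :=
    fun x hx => W.map_mem _ hx
  let T : Module.End W.K (W.gr X i) := (W.map (Φ.Fr X)).toLinearMap.restrict hinv
  have hch : (Q i).map (algebraMap ℤ W.K) = T.charpoly := by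
    rw [hQ i hi, charpolyOn, dif_pos hinv]
  have hF : ∀ y : W.gr X i, frob Φ X 1 (y : W.H X) = ((T y : W.gr X i) : W.H X) := by
    intro y
    change W.map (W534.iter (Φ.Fr X) 1) (y : W.H X) = W.map (Φ.Fr X) (y : W.H X)
    rw [W534.map_iter]
    rfl
  have h1 := span_gen_top T ⟨z, hz⟩
  have key : ∀ y : W.gr X i, y ∈ Submodule.span W.K {v | ∃ ν : W.K, v ∈ T.maxGenEigenspace ν} →
      (y : W.H X) ∈ Submodule.span W.K {x | ∃ ν : W.K, aeval ν (Q i) = 0 ∧ x ∈ W.gr X i ∧
        x ∈ (frob Φ X 1).maxGenEigenspace ν} := by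
    intro y hy
    induction hy using Submodule.span_induction with
    | mem y hy =>
      obtain ⟨ν, hν⟩ := hy
      by_cases hy0 : y = 0
      · rw [hy0]
        exact Submodule.zero_mem _
      refine Submodule.subset_span ⟨ν, ?_, y.2, ?_⟩
      · have h2 := hasEigenvalue_of_gen hν hy0
        rw [Module.End.hasEigenvalue_iff_isRoot_charpoly, ← hch, Polynomial.IsRoot,
          Polynomial.eval_map] at h2
        rwa [Polynomial.aeval_def]
      · have h2 := gen_map (θ := (W.gr X i).subtype) (T := T) (T' := frob Φ X 1) (c := 1)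
          (fun y => by
            rw [one_smul]
            exact hF y) hν
        rwa [one_mul] at h2
    | zero => exact Submodule.zero_mem _
    | add x y _ _ hx hy => exact Submodule.add_mem _ hx hy
    | smul c x _ hx => exact Submodule.smul_mem _ _ hx
  exact key _ h1

/-- The cohomology of `X` is spanned by the letters. -/
lemma span_letters [IsAlgClosed W.K] (hQ : IsCharpoly Φ X Q) (hQ0 : ∀ i ≤ 2 * X.dim, Q i ≠ 0)
    (z : W.H X) : z ∈ Submodule.span W.K (Set.range fun L : List (GLet Φ X Q τ X) => wordVal L) := by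
  refine gr_induction (W.isInternal X) (p := fun z => z ∈ Submodule.span W.K
    (Set.range fun L : List (GLet Φ X Q τ X) => wordVal L)) ?_
    (fun a b ha hb => Submodule.add_mem _ ha hb) z
  intro i a ha
  by_cases hi : i ≤ 2 * X.dim
  · refine Submodule.span_le.2 ?_ (root_of_gen hQ hi ha)
    rintro x ⟨ν, hν, hx, hg⟩
    have hne : (Q i).map (Int.castRingHom ℚ) ≠ 0 :=
      (Polynomial.map_ne_zero_iff (RingHom.injective_int _)).2 (hQ0 i hi)
    have hν' : aeval ν ((Q i).map (Int.castRingHom ℚ)) = 0 := by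
      rw [← hν, Polynomial.aeval_def, Polynomial.eval₂_map, Polynomial.aeval_def]
      congr 1
      exact Subsingleton.elim _ _
    obtain ⟨γ, hγ, hτ⟩ := Pool.Agent.TH121.KT.exists_root τ hne hν'
    have hγ' : aeval γ (Q i) = 0 := by
      rw [← hγ, Polynomial.aeval_def, Polynomial.aeval_def, Polynomial.eval₂_map]
      congr 1
    refine Submodule.subset_span ⟨[⟨𝟙 X, ⟨(i, γ), hi, hγ'⟩, x, hx, by rw [hτ]; exact hg⟩], ?_⟩
    change wordVal _ = x
    rw [wordVal_cons, wordVal_nil, mul_one]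
    exact W.map_id X x
  · rw [W.gr_eq_bot X i (by omega)] at ha
    rw [(Submodule.mem_bot _).1 ha]
    exact Submodule.zero_mem _

/-- the product of words -/
lemma word_mul {Y Z : 𝒱.Obj} {a : W.H Y} {b : W.H Z}
    (ha : a ∈ Submodule.span W.K (Set.range fun L : List (GLet Φ X Q τ Y) => wordVal L))
    (hb : b ∈ Submodule.span W.K (Set.range fun L : List (GLet Φ X Q τ Z) => wordVal L)) :
    W.map (fst Y Z) a * W.map (snd Y Z) b ∈
      Submodule.span W.K (Set.range fun L : List (GLet Φ X Q τ (Y.prod Z)) => wordVal L) := by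
  induction ha using Submodule.span_induction with
  | mem v hv =>
    induction hb using Submodule.span_induction with
    | mem u hu =>
      obtain ⟨L, rfl⟩ := hv
      obtain ⟨L', rfl⟩ := hu
      refine Submodule.subset_span ⟨L.map (GLet.pull (fst Y Z)) ++
        L'.map (GLet.pull (snd Y Z)), ?_⟩
      change wordVal _ = _
      rw [wordVal_append, wordVal_pull, wordVal_pull]
    | zero => rw [map_zero, mul_zero]; exact Submodule.zero_mem _
    | add x y _ _ hx hy => rw [map_add, mul_add]; exact Submodule.add_mem _ hx hy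
    | smul c x _ hx => rw [map_smul, mul_smul_comm]; exact Submodule.smul_mem _ _ hx
  | zero => rw [map_zero, zero_mul]; exact Submodule.zero_mem _
  | add x y _ _ hx hy => rw [map_add, add_mul]; exact Submodule.add_mem _ hx hy
  | smul c x _ hx => rw [map_smul, smul_mul_assoc]; exact Submodule.smul_mem _ _ hx

/-- The cohomology of the powers is spanned by words. -/
theorem span_words [IsAlgClosed W.K] (hQ : IsCharpoly Φ X Q) (hQ0 : ∀ i ≤ 2 * X.dim, Q i ≠ 0) :
    ∀ (n : ℕ) (z : W.H (pw X n)),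
      z ∈ Submodule.span W.K (Set.range fun L : List (GLet Φ X Q τ (pw X n)) => wordVal L) := by
  intro n
  induction n with
  | zero => exact span_letters hQ hQ0
  | succ n ih =>
    intro z
    obtain ⟨t, rfl⟩ := (W.kunneth (pw X n) X).2 z
    induction t using TensorProduct.induction_on with
    | zero => rw [map_zero]; exact Submodule.zero_mem _
    | add x y hx hy => rw [map_add]; exact Submodule.add_mem _ hx hy
    | tmul x y => exact word_mul (ih x) (span_letters hQ hQ0 y)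

/-- the words which are generalised eigenvectors at the level `s` -/
def GoodWords (Φ : FrobSystem W p) (X : 𝒱.Obj) (Q : ℕ → Polynomial ℤ) (τ : Qb →+* W.K)
    (Z : 𝒱.Obj) (s : ℕ) : Set (W.H Z) :=
  {v | ∃ L : List (GLet Φ X Q τ Z), L ≠ [] ∧ (∃ s', 0 < s' ∧ s' * Φ.e X = s * Φ.e Z) ∧
    (∀ l ∈ L, l.At s) ∧ v = wordVal L} ∪ {1}

lemma span_good {z : W.H Z}
    (hz : z ∈ Submodule.span W.K (Set.range fun L : List (GLet Φ X Q τ Z) => wordVal L)) :
    ∃ t₀, 0 < t₀ ∧ ∀ t, 0 < t → z ∈ Submodule.span W.K (GoodWords Φ X Q τ Z (t₀ * t)) := by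
  induction hz using Submodule.span_induction with
  | mem v hv =>
    obtain ⟨L, rfl⟩ := hv
    by_cases hL : L = []
    · subst hL
      exact ⟨1, one_pos, fun t _ => Submodule.subset_span (Or.inr rfl)⟩
    obtain ⟨a, ha, ⟨s₁, hs₁⟩, h⟩ := word_level L hL
    have hs₁0 : 0 < s₁ := by
      rcases Nat.eq_zero_or_pos s₁ with h0 | h0
      · subst h0
        rw [zero_mul] at hs₁
        exact absurd hs₁.symm (Nat.mul_pos ha (Φ.e_pos Z)).ne'
      · exact h0
    refine ⟨a, ha, fun t ht => Submodule.subset_span (Or.inl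
      ⟨L, hL, ⟨s₁ * t, Nat.mul_pos hs₁0 ht, ?_⟩, h t ht, rfl⟩)⟩
    calc s₁ * t * Φ.e X = (s₁ * Φ.e X) * t := by ring
      _ = _ := by rw [hs₁]; ring
  | zero => exact ⟨1, one_pos, fun t _ => Submodule.zero_mem _⟩
  | add x y _ _ hx hy =>
    obtain ⟨a, ha, h⟩ := hx
    obtain ⟨b, hb, h'⟩ := hy
    refine ⟨a * b, Nat.mul_pos ha hb, fun t ht => Submodule.add_mem _ ?_ ?_⟩
    · rw [mul_assoc]
      exact h _ (Nat.mul_pos hb ht)
    · rw [show a * b * t = b * (a * t) by ring]
      exact h' _ (Nat.mul_pos ha ht)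
  | smul c x _ hx =>
    obtain ⟨a, ha, h⟩ := hx
    exact ⟨a, ha, fun t ht => Submodule.smul_mem _ _ (h t ht)⟩

section Fact

variable [Fact p.Prime] {b d : ℕ}

/-- The generalised Tate classes on the products of copies of `X` are algebraic if this is so for
the small powers. -/
theorem TC_le_of (hQ : ∀ i ≤ 2 * X.dim, IsFrobPoly p (p ^ Φ.e X) i (Q i))
    (hb : ∑ i ∈ Finset.range (2 * X.dim + 1), (Q i).natDegree ≤ b) (hd : X.dim ≤ d)
    (hT : ∀ m < powBound b d, TC Φ (pw X m) ≤ algSpan W (pw X m))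
    (hZ : ∀ z : W.H Z,
      z ∈ Submodule.span W.K (Set.range fun L : List (GLet Φ X Q τ Z) => wordVal L)) :
    TC Φ Z ≤ algSpan W Z := by
  intro y hy
  refine TC.ind (q := fun y => y ∈ algSpan W Z) ?_ (Submodule.zero_mem _)
    (fun x y hx hy => Submodule.add_mem _ hx hy) hy
  intro s j hs x hx
  obtain ⟨t₀, ht₀, h0⟩ := span_good (hZ x)
  have h1 := h0 s hs
  have h2 := (genTate_mono' Φ s t₀ j hx).1
  set T := t₀ * s with hTdef
  change x ∈ (frob Φ Z T).maxGenEigenspace ((card Φ Z T : W.K) ^ j) at h2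
  have h3 := mem_span_gen (T := frob Φ Z T) (fun v hv => by
    rcases hv with ⟨L, hL, ⟨s', hs', hss⟩, hat, rfl⟩ | rfl
    · exact ⟨_, word_gen hss L hat⟩
    · exact ⟨1, eig_mem_gen (by rw [frob_one, one_smul])⟩) h1 h2
  refine (Submodule.span_le (p := algSpan W Z)).2 ?_ h3
  rintro v ⟨hv, hvμ⟩
  by_cases hv0 : v = 0
  · rw [hv0]
    exact Submodule.zero_mem _
  rcases hv with ⟨L, hL, ⟨s', hs', hss⟩, hat, rfl⟩ | rfl
  · refine balanced_alg hQ hb hd hT L.length L le_rfl ?_
    have h4 := eq_of_mem_gen (word_gen hss L hat) hvμ hv0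
    have h5 : (pr (labs L)) ^ s' = (((p ^ Φ.e X : ℕ) : Qb) ^ j) ^ s' := by
      apply τ.injective
      rw [map_pow, h4, card_pow, map_pow, map_pow, map_natCast, Nat.cast_pow, ← pow_mul,
        ← pow_mul]
      congr 1
      calc Φ.e Z * T * j = (T * Φ.e Z) * j := by ring
        _ = (s' * Φ.e X) * j := by rw [hss]
        _ = _ := by ring
    exact ⟨j, s', hs', h5, (Bal.sum_zero (Φ.e_pos X) hQ hs' h5).1⟩
  · exact one_mem_algSpan

/-- the sum of the degrees -/
lemma sum_natDegree (hQ : IsCharpoly Φ X Q) (hQm : ∀ i ≤ 2 * X.dim, (Q i).Monic) :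
    ∑ i ∈ Finset.range (2 * X.dim + 1), (Q i).natDegree = Module.finrank W.K (W.H X) := by
  rw [finrank_eq_sum (W.isInternal X) (N := 2 * X.dim + 1)
    (fun i hi => W.gr_eq_bot X i (by omega))]
  refine Finset.sum_congr rfl fun i hi => ?_
  have hi' : i ≤ 2 * X.dim := Nat.lt_succ_iff.1 (Finset.mem_range.1 hi)
  have hinv : ∀ x ∈ W.gr X i, (W.map (Φ.Fr X)).toLinearMap x ∈ W.gr X i :=
    fun x hx => W.map_mem _ hx
  have hch := hQ i hi'
  rw [charpolyOn, dif_pos hinv] at hch
  rw [← (hQm i hi').natDegree_map (algebraMap ℤ W.K), hch, LinearMap.charpoly_natDegree]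

/-- the generalised Tate classes and the strong Tate conjecture -/
lemma strong_iff (Z : 𝒱.Obj) : (∀ j, SemisimpleTateIn Φ Z j) ↔ TC Φ Z ≤ algSpan W Z := by
  constructor
  · intro h x hx
    refine TC.ind (q := fun x => x ∈ algSpan W Z) ?_ (Submodule.zero_mem _)
      (fun x y hx hy => Submodule.add_mem _ hx hy) hx
    intro s j hs x hx
    exact Pool.Agent.W397.MF.spanCycles_le_algSpan _ (h j s hs hx)
  · intro h j s hs x hx
    exact spanCycles_of_algSpan (h (TC.of hs hx)) hx.2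

/-- going down -/
lemma TC_down {Y : 𝒱.Obj} (g : Y ⟶ X) (h : TC Φ (Y.prod X) ≤ algSpan W (Y.prod X)) :
    TC Φ Y ≤ algSpan W Y := by
  intro x hx
  have h1 := algSpan_map (lift (𝟙 Y) g) (h (TC.map (fst Y X) hx))
  rw [← W.map_comp, lift_fst, W.map_id] at h1
  exact h1

lemma pw_map (X : 𝒱.Obj) : ∀ n, Nonempty (pw X n ⟶ X)
  | 0 => ⟨𝟙 X⟩
  | n + 1 => ⟨snd (pw X n) X⟩

lemma TC_pw_down {n : ℕ} (h : TC Φ (pw X n) ≤ algSpan W (pw X n)) :
    ∀ m ≤ n, TC Φ (pw X m) ≤ algSpan W (pw X m) := by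
  induction n with
  | zero =>
    intro m hm
    obtain rfl : m = 0 := by omega
    exact h
  | succ n ih =>
    intro m hm
    rcases Nat.lt_or_ge n m with h1 | h1
    · obtain rfl : m = n + 1 := by omega
      exact h
    · exact ih (TC_down (pw_map X n).some h) m h1

/-- **The strong Tate conjecture for one power.** -/
theorem strong_of_one [IsAlgClosed W.K] (hb : Module.finrank W.K (W.H X) ≤ b) (hd : X.dim ≤ d)
    (hP : ∀ i ≤ 2 * X.dim, ∃ P : Polynomial ℤ, IsFrobPoly p (p ^ Φ.e X) i P ∧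
      P.map (algebraMap ℤ W.K) = charpolyOn (W.map (Φ.Fr X)).toLinearMap (W.gr X i))
    (hT : TC Φ (pw X (powBound b d - 1)) ≤ algSpan W (pw X (powBound b d - 1))) (n : ℕ) :
    TC Φ (pw X n) ≤ algSpan W (pw X n) := by
  classical
  let Q : ℕ → Polynomial ℤ := fun i => if h : i ≤ 2 * X.dim then (hP i h).choose else 1
  have hQ : ∀ i ≤ 2 * X.dim, IsFrobPoly p (p ^ Φ.e X) i (Q i) := by
    intro i hi
    simp only [Q, dif_pos hi]
    exact (hP i hi).choose_spec.1
  have hQc : IsCharpoly Φ X Q := by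
    intro i hi
    simp only [Q, dif_pos hi]
    exact (hP i hi).choose_spec.2
  have hsum : ∑ i ∈ Finset.range (2 * X.dim + 1), (Q i).natDegree ≤ b := by
    rw [sum_natDegree hQc fun i hi => (hQ i hi).monic]
    exact hb
  let τ : Qb →+* W.K := (IsAlgClosed.lift : Qb →ₐ[ℚ] W.K).toRingHom
  exact TC_le_of (τ := τ) hQ hsum hd (fun m hm => TC_pw_down hT m (by omega))
    (span_words hQc (fun i hi => (hQ i hi).monic.ne_zero) n)

/-- **One power suffices.** -/
theorem one_power_suffices [IsAlgClosed W.K] (hb : Module.finrank W.K (W.H X) ≤ b)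
    (hd : X.dim ≤ d)
    (hP : ∀ i ≤ 2 * X.dim, ∃ P : Polynomial ℤ, IsFrobPoly p (p ^ Φ.e X) i P ∧
      P.map (algebraMap ℤ W.K) = charpolyOn (W.map (Φ.Fr X)).toLinearMap (W.gr X i)) :
    ((∀ j, SemisimpleTateIn Φ (pw X (powBound b d - 1)) j) →
      ∀ n j, SemisimpleTateIn Φ (pw X n) j) ∧
    (FrobSemisimple Φ X → (∀ j, TateIn Φ (pw X (powBound b d - 1)) j) →
      ∀ n j, TateIn Φ (pw X n) j) := by
  constructor
  · intro h n
    exact (strong_iff _).2 (strong_of_one hb hd hP ((strong_iff _).1 h) n)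
  · intro hss h n j c hc
    have h1 : TC Φ (pw X (powBound b d - 1)) ≤ algSpan W (pw X (powBound b d - 1)) := by
      rw [← TSpan_eq Φ hss, TSpan, Submodule.span_le]
      rintro c ⟨i, hc⟩
      exact Pool.Agent.W397.MF.spanCycles_le_algSpan _ (h i c hc)
    exact spanCycles_of_algSpan (strong_of_one hb hd hP h1 n (TSpan_le Φ _ (TSpan.of hc))) hc.1

end Fact

end Pool.Agent.Q56.FD
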